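import Pool.Agent.Work.MP_bc729a_al.L2.Nine

/-! `L_2(q)` as a composition factor. -/

open Equiv OnePoint
open scoped MatrixGroups Pointwise

namespace Pool.Agent.Work.MP_bc729a_al.L2

universe u v

/-- prime powers below 13 -/
lemma card_cases {F : Type v} [Field F] [Fintype F] (h4 : 4 ≤ Fintype.card F)
    (h2 : ringChar F ≠ 2) (h13 : Fintype.card F < 13) :
    Fintype.card F = 5 ∨ Fintype.card F = 7 ∨ Fintype.card F = 9 ∨ Fintype.card F = 11 := by
  have h1 : Fintype.card F % 2 = 1 := FiniteField.odd_card_of_char_ne_two h2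
  omega

theorem no_L2 {F : Type v} [Field F] [Fintype F] (h4 : 4 ≤ Fintype.card F)
    (h7 : Fintype.card F ≠ 7) (h11 : Fintype.card F ≠ 11) {Q : Type u} [Group Q] [Finite Q]
    {A : Subgroup Q} (e : A ≃* PSL(2, F)) (hQ : MaxCompl Q) (hA : ConjComm A) : False := by
  classical
  obtain ⟨ε⟩ := psl_equiv (F := F)
  by_cases hq : ringChar F = 2 ∨ 13 ≤ Fintype.card F
  · exact main_case hq h4 (e.trans ε) hQ hA
  · push Not at hq
    rcases card_cases h4 hq.1 hq.2 with h | h | h | h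
    · exact five_case h (e.trans ε) hQ hA
    · exact h7 h
    · exact nine_case h (e.trans ε) hQ hA
    · exact h11 h

theorem final (G : Type u) [Group G] [Finite G] (hG : MaxCompl G) (F : Type v) [Field F]
    [Fintype F] (h4 : 4 ≤ Fintype.card F) (h : IsCompFactor PSL(2, F) G) :
    Fintype.card F = 7 ∨ Fintype.card F = 11 := by
  classical
  by_contra hcon
  push Not at hcon
  obtain ⟨K, hK, f, hf⟩ := compFactor_subnormal h
  have hs : IsSimpleGroup PSL(2, F) :=
    Matrix.ProjectiveSpecialLinearGroup.rank_two_simple (by rwa [Nat.card_eq_fintype_card])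
  have hnc : ∃ x y : PSL(2, F), x * y ≠ y * x := by
    by_contra hc
    push Not at hc
    obtain ⟨ε⟩ := psl_equiv (F := F)
    have h1 : (⟨ww, ww_mem⟩ : Lam F) * ⟨tr 1, tr_mem 1⟩ = ⟨tr 1, tr_mem 1⟩ * ⟨ww, ww_mem⟩ := by
      have := congrArg ε (hc (ε.symm ⟨ww, ww_mem⟩) (ε.symm ⟨tr 1, tr_mem 1⟩))
      simpa using this
    have h2 : (ww : Perm (OnePoint F)) * tr 1 = tr 1 * ww := congrArg Subtype.val h1
    have h3 := congrArg (fun g : Perm (OnePoint F) => g ∞) h2
    simp only [Perm.mul_apply, tr_infty, ww_infty, tr_coe, zero_add] at h3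
    exact zero_ne_one (OnePoint.coe_injective h3)
  obtain ⟨Q, _, _, hQ, A, ⟨e⟩, hA⟩ := reduction PSL(2, F) hnc G hG K hK f hf
  exact no_L2 h4 hcon.1 hcon.2 e hQ hA

end Pool.Agent.Work.MP_bc729a_al.L2
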