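import Pool.Agent.Work.MP_bc729a_al.L2.MaxA

/-! Cardinalities. -/

open Equiv OnePoint
open scoped MatrixGroups

namespace Pool.Agent.Work.MP_bc729a_al.L2

universe v

variable {F : Type v} [Field F] [DecidableEq F]

variable (F) in
/-- the torus of dilations -/
noncomputable def dlHom : Fˣ →* Perm (OnePoint F) where
  toFun := dl
  map_one' := dl_one
  map_mul' := dl_mul

variable (F) in
/-- the torus of dilations -/
noncomputable def torus : Subgroup (Perm (OnePoint F)) := (dlHom F).range

lemma mem_torus {g : Perm (OnePoint F)} : g ∈ torus F ↔ ∃ a : Fˣ, dl a = g := Iff.rfl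

lemma dl_eq_one_iff {a : Fˣ} : dl a = 1 ↔ (a : F) ^ 2 = 1 := by
  constructor
  · intro h
    have h1 := dl_coe a 1
    rw [h] at h1
    have h2 : (1 : F) = (a : F) ^ 2 * 1 := OnePoint.coe_injective h1
    rw [mul_one] at h2
    exact h2.symm
  · intro h
    ext x
    induction x using OnePoint.rec with
    | infty => simp
    | coe x => simp [h]

lemma card_torus [Fintype F] (h2 : ringChar F ≠ 2) : 2 * Nat.card (torus F) + 1 = Fintype.card F := by
  have h1 : Nat.card (dlHom F).ker = 2 := by
    have h3 : ((dlHom F).ker : Set Fˣ) = {1, -1} := by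
      ext a
      simp only [SetLike.mem_coe, MonoidHom.mem_ker, Set.mem_insert_iff, Set.mem_singleton_iff]
      change dl a = 1 ↔ _
      rw [dl_eq_one_iff, sq_eq_one_iff, Units.ext_iff, Units.ext_iff]
      simp
    have h4 : Nat.card (dlHom F).ker = ({1, -1} : Set Fˣ).ncard := by
      rw [← h3]; rfl
    rw [h4, Set.ncard_pair]
    intro h
    have := congrArg Units.val h
    simp only [Units.val_one, Units.val_neg] at this
    exact Ring.neg_one_ne_one_of_char_ne_two h2 this.symm
  have h3 := (dlHom F).ker.card_mul_index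
  rw [h1, Subgroup.index_ker] at h3
  have h4 : Nat.card Fˣ = Fintype.card F - 1 := by
    rw [Nat.card_eq_fintype_card, Fintype.card_units]
  rw [h4] at h3
  have h5 : 0 < Fintype.card F := Fintype.card_pos
  have h6 : Nat.card (torus F) = Nat.card (dlHom F).range := rfl
  omega

lemma card_eq_orbit (Y : Subgroup (Perm (OnePoint F))) (x : OnePoint F) :
    Nat.card Y = (MulAction.orbit Y x).ncard * Nat.card (MulAction.stabilizer Y x) := by
  have h1 := (MulAction.stabilizer Y x).card_mul_index
  rw [MulAction.index_stabilizer] at h1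
  rw [← h1, mul_comm]

/-- the stabiliser of infinity of an overgroup without translations -/
lemma Over.card_stab {X : Subgroup (Perm (OnePoint F))} (h : Over X)
    (hV : ∀ b : F, tr b ∈ X → b = 0) :
    Nat.card (MulAction.stabilizer X (∞ : OnePoint F)) = Nat.card (torus F) := by
  apply Nat.card_congr
  refine ⟨fun g => ⟨((g : X) : Perm (OnePoint F)), ?_⟩, fun g => ⟨⟨g, ?_⟩, ?_⟩, ?_, ?_⟩
  · obtain ⟨a, ha⟩ := h.stab_infty hV (g : X).2 g.2
    exact ⟨a, ha.symm⟩
  · obtain ⟨a, ha⟩ := g.2
    rw [← ha]; exact h.dl a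
  · obtain ⟨a, ha⟩ := g.2
    rw [MulAction.mem_stabilizer_iff]
    change (g : Perm (OnePoint F)) ∞ = ∞
    rw [← ha]
    exact dl_infty a
  · intro g; rfl
  · intro g; rfl

lemma card_Lam [Fintype F] :
    Nat.card (Lam F) = (Fintype.card F + 1) * (Fintype.card F * Nat.card (torus F)) := by
  rw [card_eq_orbit (Lam F) ∞]
  congr 1
  · have h1 : MulAction.orbit (Lam F) (∞ : OnePoint F) = Set.univ := by
      rw [Set.eq_univ_iff_forall]
      intro x
      obtain ⟨g, hg, hgx⟩ := transLam (∞ : OnePoint F) x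
      exact ⟨⟨g, hg⟩, hgx⟩
    rw [h1, Set.ncard_univ, Nat.card_eq_fintype_card]
    exact Fintype.card_option
  · have h1 : Fintype.card F * Nat.card (torus F) = Nat.card (F × torus F) := by
      rw [Nat.card_prod, Nat.card_eq_fintype_card (α := F)]
    rw [h1]
    symm
    apply Nat.card_congr
    refine Equiv.ofBijective (fun p : F × torus F =>
      ⟨⟨tr p.1 * (p.2 : Perm (OnePoint F)), ?_⟩, ?_⟩) ⟨?_, ?_⟩
    · obtain ⟨a, ha⟩ := p.2.2
      rw [← ha]
      exact mul_mem (tr_mem _) (dl_mem a)
    · obtain ⟨a, ha⟩ := p.2.2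
      rw [MulAction.mem_stabilizer_iff]
      change (tr p.1 * (p.2 : Perm (OnePoint F))) ∞ = ∞
      rw [← ha]
      change (tr p.1 * dl a) ∞ = ∞
      simp
    · rintro ⟨b, ⟨_, a, rfl⟩⟩ ⟨c, ⟨_, d, rfl⟩⟩ heq
      have h2 : tr b * dl a = tr c * dl d := by
        have := congrArg (fun z : MulAction.stabilizer (Lam F) (∞ : OnePoint F) =>
          ((z : Lam F) : Perm (OnePoint F))) heq
        exact this
      have h3 : b = c := by
        have := congrArg (fun f : Perm (OnePoint F) => f ((0 : F) : OnePoint F)) h2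
        simp only [Perm.coe_mul, Function.comp_apply, dl_coe, tr_coe, mul_zero, zero_add] at this
        exact OnePoint.coe_injective this
      subst h3
      have h4 : dl a = dl d := mul_left_cancel h2
      have h5 : (⟨dlHom F a, a, rfl⟩ : torus F) = ⟨dlHom F d, d, rfl⟩ := Subtype.ext h4
      rw [h5]
    · rintro ⟨⟨g, hg⟩, hgi⟩
      obtain ⟨a, b, rfl⟩ := fix_infty hg hgi
      exact ⟨⟨b, ⟨dl a, a, rfl⟩⟩, rfl⟩

end Pool.Agent.Work.MP_bc729a_al.L2
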