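import Pool.Agent.Work.MP_bc729a_al.L2.Gen

/-! Criteria: a simple group `Λ ≤ Perm Ω` whose automorphisms are induced by permutations of `Ω`,
acting transitively on a set `𝓕` with maximal point stabilisers. -/

open scoped Pointwise
open Equiv

namespace Pool.Agent.Work.MP_bc729a_al.L2

universe u v w

section crit

variable {Ω : Type v} {Λ : Subgroup (Perm Ω)} {𝓕 : Type w} [MulAction (Perm Ω) 𝓕]

/-- point stabiliser in `Λ` -/
def stab (Λ : Subgroup (Perm Ω)) (f : 𝓕) : Subgroup Λ := MulAction.stabilizer Λ f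

lemma mem_stab {f : 𝓕} {x : Λ} : x ∈ stab Λ f ↔ (x : Perm Ω) • f = f := Iff.rfl

lemma map_stab (α : Λ ≃* Λ) (σ : Perm Ω)
    (hσ : ∀ x : Λ, ((α x : Λ) : Perm Ω) = σ * (x : Perm Ω) * σ⁻¹) (f : 𝓕) :
    (stab Λ f).map α.toMonoidHom = stab Λ (σ • f) := by
  ext x
  obtain ⟨y, rfl⟩ := α.surjective x
  constructor
  · rintro ⟨z, hz, hz2⟩
    have : z = y := α.injective hz2
    subst this
    rw [mem_stab, hσ, mul_smul, mul_smul, inv_smul_smul]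
    have hz' := mem_stab.1 hz
    rw [hz']
  · intro h
    refine ⟨y, ?_, rfl⟩
    rw [mem_stab, hσ, mul_smul, mul_smul, inv_smul_smul] at h
    exact mem_stab.2 (smul_left_cancel σ h)

lemma conj_smul_stab (a : Λ) (f : 𝓕) :
    MulAut.conj a • stab Λ f = stab Λ ((a : Perm Ω) • f) := by
  ext x
  rw [mem_conj_smul, mem_stab, mem_stab]
  simp only [Subgroup.coe_mul, InvMemClass.coe_inv, mul_smul]
  rw [inv_smul_eq_iff]

lemma autInv_stab (hInd : AutInd Λ) (f : 𝓕) (htr : ∀ g : 𝓕, ∃ x ∈ Λ, x • f = g) :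
    AutInv (stab Λ f) := by
  intro α
  obtain ⟨σ, hσ⟩ := hInd α
  obtain ⟨a, ha, haf⟩ := htr (σ • f)
  refine ⟨⟨a, ha⟩, ?_⟩
  rw [map_stab α σ hσ, conj_smul_stab, haf]

lemma index_stab (f : 𝓕) (htr : ∀ g : 𝓕, ∃ x ∈ Λ, x • f = g) :
    (stab Λ f).index = Nat.card 𝓕 := by
  have : MulAction.IsPretransitive Λ 𝓕 := by
    constructor
    intro x y
    obtain ⟨a, ha, rfl⟩ := htr x
    obtain ⟨b, hb, rfl⟩ := htr y
    refine ⟨⟨b * a⁻¹, Λ.mul_mem hb (Λ.inv_mem ha)⟩, ?_⟩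
    change (b * a⁻¹) • a • f = b • f
    rw [mul_smul, inv_smul_smul]
  exact MulAction.index_stabilizer_of_transitive Λ f

lemma stab_inj [IsSimpleGroup Λ] (f : 𝓕) (htr : ∀ g : 𝓕, ∃ x ∈ Λ, x • f = g)
    (hco : IsCoatom (stab Λ f)) (hne : stab Λ f ≠ ⊥) {g h : 𝓕} (hgh : stab Λ g = stab Λ h) :
    g = h := by
  obtain ⟨a, ha, rfl⟩ := htr g
  obtain ⟨b, hb, rfl⟩ := htr h
  have h1 : stab Λ (a • f) = MulAut.conj (⟨a, ha⟩ : Λ) • stab Λ f := (conj_smul_stab ⟨a, ha⟩ f).symm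
  have h2 : stab Λ (b • f) = MulAut.conj (⟨b, hb⟩ : Λ) • stab Λ f := (conj_smul_stab ⟨b, hb⟩ f).symm
  have h3 : MulAut.conj ((⟨b, hb⟩ : Λ)⁻¹ * ⟨a, ha⟩) • stab Λ f = stab Λ f := by
    rw [map_mul, mul_smul, ← h1, hgh, h2, ← mul_smul, ← map_mul, inv_mul_cancel, map_one, one_smul]
  -- the normaliser of `stab Λ f` is itself
  have h4 : Subgroup.normalizer (stab Λ f : Set Λ) = stab Λ f := by
    by_contra hcon
    have hlt : stab Λ f < Subgroup.normalizer (stab Λ f : Set Λ) :=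
      lt_of_le_of_ne Subgroup.le_normalizer (Ne.symm hcon)
    have htop := hco.2 _ hlt
    have hN : (stab Λ f).Normal := Subgroup.normalizer_eq_top_iff.1 htop
    rcases hN.eq_bot_or_eq_top with h | h
    · exact hne h
    · exact hco.1 h
  have h5 : (⟨b, hb⟩ : Λ)⁻¹ * ⟨a, ha⟩ ∈ stab Λ f := by
    rw [← h4, Subgroup.mem_normalizer_iff]
    intro x
    conv_rhs => rw [← h3]
    rw [mem_conj_smul]
    simp [mul_assoc]
  rw [mem_stab] at h5
  have h6 : (b⁻¹ * a) • f = f := h5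
  rw [mul_smul, inv_smul_eq_iff] at h6
  exact h6

variable {Q : Type u} [Group Q] [Finite Q] {A : Subgroup Q} (e : A ≃* Λ)

omit [Finite Q] in
lemma rel_smul_stab {y : Q} {σ : Perm Ω} (h : Rel e y σ) (f : 𝓕) :
    MulAut.conj y • lift e (stab Λ f) = lift e (stab Λ (σ • f)) := by
  rw [conj_smul_lift e y h.1, map_stab _ σ ((rel_iff e h.1 σ).1 h)]

include e in
/-- criterion, `|𝓕|` divisible by a prime `p` such that permutations of order `p` (or 1) fix a point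
of `𝓕` -/
theorem crit_prime (hQ : MaxCompl Q) (hA : ConjComm A) [IsSimpleGroup Λ] (hInd : AutInd Λ)
    (hC : TrivCent Λ) (f : 𝓕) (htr : ∀ g : 𝓕, ∃ x ∈ Λ, x • f = g)
    (hco : IsCoatom (stab Λ f)) (hne : stab Λ f ≠ ⊥) (p : ℕ) [Fact p.Prime]
    (hinv : ∀ σ : Perm Ω, σ ^ p = 1 → ∃ g : 𝓕, σ • g = g) (h2 : p ∣ Nat.card 𝓕) : False := by
  obtain ⟨M, K, hM, hAM, hMA, hK, hnn⟩ := exists_MK_gen e hQ hA hco (autInv_stab hInd f htr)
    (not_normal_coatom hco hne)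
  have hd : p ∣ Nat.card K := by
    refine dvd_trans ?_ (relIndex_dvd_card A hA M K hM hAM hnn hK)
    rw [relIndex_MR e hMA, index_stab f htr]
    exact h2
  refine no_prime_card A hA M K hM hAM hnn hK p ?_ hd
  intro x hx hxA
  obtain ⟨σ, hσ⟩ := exists_rel e hInd hxA
  have hσp : σ ^ p = 1 := by
    apply rel_one_eq e hC
    rw [← hx]
    exact rel_pow e hσ p
  obtain ⟨g, hg⟩ := hinv σ hσp
  obtain ⟨b, hb, hbg⟩ := htr g
  refine ⟨e.symm ⟨b, hb⟩, (e.symm ⟨b, hb⟩).2, ?_⟩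
  have h4 : MulAut.conj ((e.symm ⟨b, hb⟩ : A) : Q) • (M ⊓ A) = lift e (stab Λ g) := by
    rw [hMA, conj_smul_lift_mem e (e.symm ⟨b, hb⟩).2]
    have h3 : (e ⟨((e.symm ⟨b, hb⟩ : A) : Q), (e.symm ⟨b, hb⟩).2⟩) = ⟨b, hb⟩ := by simp
    rw [h3, conj_smul_stab, hbg]
  rw [map_mul, mul_smul, h4, rel_smul_stab e hσ, hg]

include e in
/-- the permutations induced by the complement are transitive on `𝓕` -/
theorem crit_trans (hQ : MaxCompl Q) (hA : ConjComm A) [IsSimpleGroup Λ] (hInd : AutInd Λ)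
    (hC : TrivCent Λ) (f : 𝓕) (htr : ∀ g : 𝓕, ∃ x ∈ Λ, x • f = g)
    (hco : IsCoatom (stab Λ f)) (hne : stab Λ f ≠ ⊥) (p : ℕ) [Fact p.Prime] [Finite Ω]
    (hT : ∀ T : Subgroup (Perm Ω), (∀ g : 𝓕, ∃ τ ∈ T, τ • f = g) → p ∣ Nat.card T)
    (h2 : ¬ p ∣ Nat.card 𝓕) : False := by
  obtain ⟨M, K, hM, hAM, hMA, hK, hnn⟩ := exists_MK_gen e hQ hA hco (autInv_stab hInd f htr)
    (not_normal_coatom hco hne)
  have htrK : ∀ g : 𝓕, ∃ τ ∈ indT e K, τ • f = g := by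
    intro g
    obtain ⟨b, hb, hbg⟩ := htr g
    obtain ⟨y, hy, hyA, hyM⟩ := compl_transitive A hA M K hM hAM hnn hK
      (e.symm ⟨b, hb⟩) (e.symm ⟨b, hb⟩).2
    obtain ⟨σ, hσ⟩ := exists_rel e hInd hyA
    refine ⟨σ, ⟨y, hy, hσ⟩, ?_⟩
    have h3 : (e ⟨((e.symm ⟨b, hb⟩ : A) : Q), (e.symm ⟨b, hb⟩).2⟩) = ⟨b, hb⟩ := by simp
    rw [hMA, rel_smul_stab e hσ, conj_smul_lift_mem e (e.symm ⟨b, hb⟩).2, h3,
      conj_smul_stab, hbg] at hyM
    exact stab_inj f htr hco hne (lift_injective e hyM)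
  have h3 := hT _ htrK
  have h4 := prime_dvd_indT e hC K p Fact.out h3
  have h5 := prime_dvd A hA M K hM hAM hnn hK p Fact.out h4
  rw [relIndex_MR e hMA, index_stab f htr] at h5
  exact h2 h5

end crit

end Pool.Agent.Work.MP_bc729a_al.L2
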