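import Mathlib

/-! Two facts on finite simple groups of order `60` and `360`. -/

open scoped Pointwise
open Equiv

namespace Pool.Agent.Work.MP_bc729a_al.L2

universe v

/-- a simple group of order `60` with a subgroup of index `5` is `A_5` -/
theorem iso_A5 {G : Type v} [Group G] [IsSimpleGroup G] (hG : Nat.card G = 60) (N : Subgroup G)
    (hN : N.index = 5) : Nonempty (G ≃* alternatingGroup (Fin 5)) := by
  classical
  have : Finite G := Nat.finite_of_card_ne_zero (by rw [hG]; norm_num)
  have : N.FiniteIndex := ⟨by rw [hN]; norm_num⟩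
  let φ : G →* Perm (G ⧸ N) := MulAction.toPermHom G (G ⧸ N)
  have hinj : Function.Injective φ := by
    rw [← MonoidHom.ker_eq_bot_iff]
    rcases (inferInstance : φ.ker.Normal).eq_bot_or_eq_top with h | h
    · exact h
    · exfalso
      have h1 : N = ⊤ := by
        rw [eq_top_iff]
        intro g _
        have h2 : g ∈ φ.ker := by rw [h]; trivial
        have h3 : g • ((1 : G) : G ⧸ N) = ((1 : G) : G ⧸ N) :=
          congrArg (fun f : Perm (G ⧸ N) => f ((1 : G) : G ⧸ N)) h2
        have h4 : ((g * 1 : G) : G ⧸ N) = ((1 : G) : G ⧸ N) := h3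
        rw [mul_one, QuotientGroup.eq] at h4
        simpa using h4
      rw [h1, Subgroup.index_top] at hN
      omega
  have hc : Nat.card (G ⧸ N) = 5 := hN
  have hfin : Finite (G ⧸ N) := Nat.finite_of_card_ne_zero (by rw [hc]; norm_num)
  obtain ⟨ε⟩ : Nonempty (G ⧸ N ≃ Fin 5) := by
    rw [← Nat.card_fin 5] at hc
    exact (Finite.card_eq).1 hc
  let ψ : G →* Perm (Fin 5) := (Equiv.permCongrHom ε).toMonoidHom.comp φ
  have hψ : Function.Injective ψ := (Equiv.permCongrHom ε).injective.comp hinj
  have h1 : Nat.card ψ.range = 60 := by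
    rw [← hG]
    exact (Nat.card_congr (MonoidHom.ofInjective hψ).toEquiv).symm
  have h2 : ψ.range.index = 2 := by
    have h3 := ψ.range.card_mul_index
    rw [h1, Nat.card_perm, Nat.card_fin] at h3
    have h4 : Nat.factorial 5 = 120 := by decide
    omega
  have h3 : ψ.range = alternatingGroup (Fin 5) := Equiv.Perm.eq_alternatingGroup_of_index_eq_two h2
  exact ⟨(MonoidHom.ofInjective hψ).trans (MulEquiv.subgroupCongr h3)⟩

/-- a simple group of order `360` has no subgroup of index `9` -/
theorem no_index_nine {G : Type v} [Group G] [IsSimpleGroup G] (hG : Nat.card G = 360)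
    (B : Subgroup G) : B.index ≠ 9 := by
  intro h9
  have hfin : Finite G := Nat.finite_of_card_ne_zero (by rw [hG]; norm_num)
  have hp5 : Fact (Nat.Prime 5) := ⟨by norm_num⟩
  have hB : Nat.card B = 40 := by
    have := B.card_mul_index
    rw [h9, hG] at this
    omega
  let P : Sylow 5 B := default
  have hP : Nat.card (P : Subgroup B) = 5 := by
    rw [Sylow.card_eq_multiplicity, hB]
    have : Nat.factorization 40 5 = 1 := by
      rw [show (40 : ℕ) = 5 ^ 1 * 8 by norm_num, Nat.factorization_mul (by norm_num) (by norm_num),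
        Nat.Prime.factorization_pow (by norm_num)]
      simp [Nat.factorization_eq_zero_of_not_dvd]
    rw [this]; norm_num
  have hPi : (P : Subgroup B).index = 8 := by
    have := (P : Subgroup B).card_mul_index
    rw [hP, hB] at this
    omega
  have hn : Nat.card (Sylow 5 B) = 1 := by
    have h1 := card_sylow_modEq_one 5 B
    have h2 := P.card_dvd_index
    rw [hPi] at h2
    have h3 := Nat.le_of_dvd (by norm_num) h2
    have h4 : Nat.card (Sylow 5 B) % 5 = 1 := h1
    generalize Nat.card (Sylow 5 B) = m at *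
    interval_cases m <;> omega
  have hsub : Subsingleton (Sylow 5 B) := (Nat.card_eq_one_iff_unique.1 hn).1
  have hPn : (P : Subgroup B).Normal := P.normal_of_subsingleton
  obtain ⟨Q, hQ⟩ : ∃ Q : Sylow 5 G, (P : Subgroup B).map B.subtype ≤ Q :=
    IsPGroup.exists_le_sylow (P.2.map B.subtype)
  have hQc : Nat.card (Q : Subgroup G) = 5 := by
    rw [Sylow.card_eq_multiplicity, hG]
    have : Nat.factorization 360 5 = 1 := by
      rw [show (360 : ℕ) = 5 ^ 1 * 72 by norm_num,
        Nat.factorization_mul (by norm_num) (by norm_num),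
        Nat.Prime.factorization_pow (by norm_num)]
      simp [Nat.factorization_eq_zero_of_not_dvd]
    rw [this]; norm_num
  have hPc : Nat.card ((P : Subgroup B).map B.subtype) = 5 := by
    refine Eq.trans ?_ hP
    exact (Nat.card_congr ((P : Subgroup B).equivMapOfInjective _
      (Subgroup.subtype_injective _)).toEquiv).symm
  have hPQ : (P : Subgroup B).map B.subtype = Q :=
    Subgroup.eq_of_le_of_card_ge hQ (by rw [hPc, hQc])
  have hBN : B ≤ Subgroup.normalizer ((Q : Subgroup G) : Set G) := by
    intro b hb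
    rw [← hPQ, Subgroup.mem_normalizer_iff]
    intro x
    constructor
    · rintro ⟨y, hy, rfl⟩
      exact ⟨⟨b, hb⟩ * y * ⟨b, hb⟩⁻¹, hPn.conj_mem y hy ⟨b, hb⟩, rfl⟩
    · rintro ⟨y, hy, hyx⟩
      refine ⟨⟨b, hb⟩⁻¹ * y * ⟨b, hb⟩, ?_, ?_⟩
      · have := hPn.conj_mem y hy (⟨b, hb⟩⁻¹)
        rwa [inv_inv] at this
      · have hyx' : (y : G) = b * x * b⁻¹ := hyx
        change b⁻¹ * (y : G) * b = x
        rw [hyx']; group
  have h1 := Q.card_eq_index_normalizer
  have h2 : (Subgroup.normalizer ((Q : Subgroup G) : Set G)).index ∣ 9 := by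
    rw [← h9]
    exact Subgroup.index_dvd_of_le hBN
  have h3 := card_sylow_modEq_one 5 G
  have h3' : Nat.card (Sylow 5 G) % 5 = 1 := h3
  rw [h1] at h3'
  have h4 := Nat.le_of_dvd (by norm_num) h2
  have h5 : (Subgroup.normalizer ((Q : Subgroup G) : Set G)).index = 1 := by
    generalize (Subgroup.normalizer ((Q : Subgroup G) : Set G)).index = m at *
    interval_cases m <;> omega
  have h6 := Subgroup.index_eq_one.1 h5
  have h7 : (Q : Subgroup G).Normal := Subgroup.normalizer_eq_top_iff.1 h6
  rcases h7.eq_bot_or_eq_top with h | h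
  · rw [h, Subgroup.card_bot] at hQc
    omega
  · rw [h, Subgroup.card_top] at hQc
    omega

end Pool.Agent.Work.MP_bc729a_al.L2
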