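import Pool.Agent.Work.MP_bc729a_al.L2.Pairs

/-! The permutations induced by the complement. -/

open scoped Pointwise
open Equiv

namespace Pool.Agent.Work.MP_bc729a_al

open EY

universe u v w

theorem relIndex_eq_norm {G : Type u} [Group G] [Finite G] (A : Subgroup G) (hA : ConjComm A)
    (M K : Subgroup G) (hM : IsCoatom M) (hAM : ¬ A ≤ M)
    (hnn : ∃ a ∈ A, MulAut.conj a • (M ⊓ A) ≠ M ⊓ A) (hK : M.IsComplement' K) :
    M.relIndex A = (stb (M ⊓ A)).relIndex (K ⊓ stb A) := by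
  rw [← ncard_traces A hA M hM hAM hnn]
  have hset : {D : Subgroup G | ∃ a ∈ A, cj a (M ⊓ A) = D} =
      {D : Subgroup G | ∃ y ∈ K ⊓ stb A, cj y (M ⊓ A) = D} := by
    ext D
    constructor
    · rintro ⟨a, ha, rfl⟩
      obtain ⟨y, hy, hyA, e⟩ := compl_transitive A hA M K hM hAM hnn hK a ha
      exact ⟨y, ⟨hy, hyA⟩, e⟩
    · rintro ⟨y, hy, rfl⟩
      obtain ⟨c, hc, e⟩ := image_trace hA hM hAM y (isC_self A)
      have hyA : cj y A = A := hy.2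
      rw [hyA] at hc e
      exact ⟨c, hc, e.symm⟩
  rw [hset, orbit_card]

namespace L2

section

variable {Ω : Type v} {Λ : Subgroup (Perm Ω)} {Q : Type u} [Group Q] {A : Subgroup Q}
  (e : A ≃* Λ)

lemma rel_unique (hc : TrivCent Λ) {y : Q} {σ τ : Perm Ω} (h1 : Rel e y σ) (h2 : Rel e y τ) :
    σ = τ := by
  have h3 := rel_mul e h1 (rel_inv e h2)
  rw [mul_inv_cancel] at h3
  have h4 := rel_one_eq e hc h3
  exact mul_inv_eq_one.1 h4

theorem index_dvd_indT [Finite Q] (hc : TrivCent Λ) (hΛ : AutInd Λ) (hA : ConjComm A)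
    (M K : Subgroup Q) (hM : IsCoatom M) (hAM : ¬ A ≤ M)
    (hnn : ∃ a ∈ A, MulAut.conj a • (M ⊓ A) ≠ M ⊓ A) (hK : M.IsComplement' K) :
    M.relIndex A ∣ Nat.card (indT e K) := by
  rw [relIndex_eq_norm A hA M K hM hAM hnn hK]
  have hex : ∀ y : (K ⊓ stb A : Subgroup Q), ∃ σ, Rel e (y : Q) σ := fun y =>
    exists_rel e hΛ y.2.2
  choose s hs using hex
  let ψ : (K ⊓ stb A : Subgroup Q) →* indT e K :=
    { toFun := fun y => ⟨s y, (y : Q), y.2.1, hs y⟩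
      map_one' := Subtype.ext (rel_unique e hc (hs 1) (rel_one e))
      map_mul' := fun y z => Subtype.ext (rel_unique e hc (hs (y * z)) (rel_mul e (hs y) (hs z))) }
  have hψ : Function.Surjective ψ := by
    rintro ⟨σ, y, hy, hr⟩
    exact ⟨⟨y, hy, hr.1⟩, Subtype.ext (rel_unique e hc (hs _) hr)⟩
  have hker : ψ.ker ≤ (stb (M ⊓ A)).subgroupOf (K ⊓ stb A) := by
    intro y hy
    rw [MonoidHom.mem_ker] at hy
    have h1 : s y = 1 := congrArg Subtype.val hy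
    have h2 := hs y
    rw [h1] at h2
    have h3 : ∀ x ∈ A, (y : Q) * x * (y : Q)⁻¹ = x := by
      intro x hx
      have h4 : (y : Q) * x * (y : Q)⁻¹ ∈ A := mem_of_smul_eq h2.1 hx
      have h5 := h2.2 ⟨x, hx⟩ ⟨_, h4⟩ rfl
      have h6 : e ⟨_, h4⟩ = e ⟨x, hx⟩ := Subtype.ext (by rw [h5]; simp)
      exact congrArg Subtype.val (e.injective h6)
    rw [Subgroup.mem_subgroupOf, mem_stb]
    ext x
    change x ∈ MulAut.conj (y : Q) • (M ⊓ A) ↔ _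
    rw [mem_conj_smul]
    constructor
    · intro hx
      have h4 := h3 _ hx.2
      have h5 : (y : Q) * ((y : Q)⁻¹ * x * (y : Q)) * (y : Q)⁻¹ = x := by group
      rw [h5] at h4
      rw [h4]
      exact hx
    · intro hx
      have h4 := h3 x hx.2
      have h5 : (y : Q)⁻¹ * x * (y : Q) = x := by
        conv_lhs => rw [← h4]
        group
      rw [h5]
      exact hx
  rw [Subgroup.relIndex, ← Subgroup.index_map_eq _ hψ hker]
  exact Subgroup.index_dvd_card _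

end

section

variable {Ω : Type v} {Λ : Subgroup (Perm Ω)} {𝓕 : Type w} [MulAction (Perm Ω) 𝓕]
  {Q : Type u} [Group Q] [Finite Q] {A : Subgroup Q} (e : A ≃* Λ)

/-- if the trace of `M` is a point stabiliser in a transitive action, the permutations induced by a
complement are transitive -/
theorem trans_indT (hA : ConjComm A) (hInd : AutInd Λ)
    (f : 𝓕) (htr : ∀ g : 𝓕, ∃ x ∈ Λ, x • f = g) (M K : Subgroup Q) (hM : IsCoatom M)
    (hAM : ¬ A ≤ M) (hnn : ∃ a ∈ A, MulAut.conj a • (M ⊓ A) ≠ M ⊓ A) (hK : M.IsComplement' K)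
    (hMA : M ⊓ A = lift e (stab Λ f)) (g : 𝓕) : ∃ τ ∈ indT e K, τ • f = g := by
  have key : ∀ c : Λ, (e ⟨((e.symm c : A) : Q), (e.symm c).2⟩) = c := by
    intro c; simp
  obtain ⟨b, hb, hbg⟩ := htr g
  obtain ⟨y, hy, hyA, hyM⟩ := compl_transitive A hA M K hM hAM hnn hK
    (e.symm ⟨b, hb⟩) (e.symm ⟨b, hb⟩).2
  obtain ⟨σ, hσ⟩ := exists_rel e hInd hyA
  refine ⟨σ, ⟨y, hy, hσ⟩, ?_⟩
  obtain ⟨c, hc, hcσ⟩ := htr (σ • f)
  rw [hMA, rel_smul_stab e hσ, conj_smul_lift_mem e (e.symm ⟨b, hb⟩).2, key, ← hcσ] at hyM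
  have h7 := lift_injective e hyM
  have h7' : MulAut.conj (⟨c, hc⟩ : Λ) • stab Λ f = MulAut.conj (⟨b, hb⟩ : Λ) • stab Λ f := by
    rw [← h7, conj_smul_stab]
  have h8 : MulAut.conj ((⟨b, hb⟩ : Λ)⁻¹ * ⟨c, hc⟩) • stab Λ f = stab Λ f := by
    rw [map_mul, mul_smul, h7', ← mul_smul, ← map_mul, inv_mul_cancel, map_one, one_smul]
  have h9 := normalizer_inf A hA M hM hAM hnn (e.symm ((⟨b, hb⟩ : Λ)⁻¹ * ⟨c, hc⟩))
    (e.symm ((⟨b, hb⟩ : Λ)⁻¹ * ⟨c, hc⟩)).2 (by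
      rw [hMA, conj_smul_lift_mem e (e.symm ((⟨b, hb⟩ : Λ)⁻¹ * ⟨c, hc⟩)).2, key, h8])
  have h10 : ((e.symm ((⟨b, hb⟩ : Λ)⁻¹ * ⟨c, hc⟩) : A) : Q) ∈ M ⊓ A :=
    ⟨h9, (e.symm ((⟨b, hb⟩ : Λ)⁻¹ * ⟨c, hc⟩)).2⟩
  rw [hMA, mem_lift] at h10
  obtain ⟨_, h11⟩ := h10
  rw [key] at h11
  have h12 : (b⁻¹ * c) • f = f := mem_stab.1 h11
  rw [mul_smul, inv_smul_eq_iff] at h12
  rw [← hcσ, h12, hbg]

end

end L2

end Pool.Agent.Work.MP_bc729a_al
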