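import Pool.Agent.Work.MP_bc729a_al.L2.MaxE
import Pool.Agent.Work.MP_bc729a_al.L2.Trans
import Pool.Agent.Work.MP_bc729a_al.L2.Small
import Pool.Agent.Work.MP_bc729a_al.Final

/-! The case `q = 5`, and common preparations for `q = 5, 9`. -/

open Equiv OnePoint
open scoped MatrixGroups Pointwise

namespace Pool.Agent.Work.MP_bc729a_al.L2

universe u v

variable {F : Type v} [Field F] [DecidableEq F]

lemma not_normal_of {S : Type v} [Group S] [IsSimpleGroup S] {B : Subgroup S} (hB : B ≠ ⊤)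
    (hB0 : B ≠ ⊥) : ∃ a : S, MulAut.conj a • B ≠ B := by
  by_contra hcon
  push Not at hcon
  have hN : B.Normal := by
    constructor
    intro x hx g
    have h1 := hcon g
    rw [← h1, mem_conj_smul]
    simpa [mul_assoc] using hx
  rcases hN.eq_bot_or_eq_top with h | h
  · exact hB0 h
  · exact hB h

section

variable {Q : Type u} [Group Q] [Finite Q] {A : Subgroup Q} (e : A ≃* Lam F)

theorem setup [Fintype F] (h4 : 4 ≤ Fintype.card F) (hQ : MaxCompl Q) (hA : ConjComm A) :
    ∃ (M K : Subgroup Q) (R : Subgroup (Lam F)), IsCoatom M ∧ ¬ A ≤ M ∧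
      stab (Lam F) (f0 F) ≤ R ∧ R ≠ ⊤ ∧ M ⊓ A = lift e R ∧ M.IsComplement' K ∧
      ∃ a ∈ A, MulAut.conj a • (M ⊓ A) ≠ M ⊓ A := by
  have hs : IsSimpleGroup (Lam F) := lam_simple (by rwa [Nat.card_eq_fintype_card])
  obtain ⟨M, R, hM, hAM, hBR, hR, hMR⟩ := exists_MR e hA
    (autInv_stab lam_unip.1 (f0 F) trans_pairs) (not_normal_of stab_ne_top stab_ne_bot)
  obtain ⟨K, hK⟩ := hQ M hM
  refine ⟨M, K, R, hM, hAM, hBR, hR, hMR, hK, ?_⟩
  rw [hMR]
  refine lift_conj_ne e (not_normal_of hR ?_)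
  intro h
  rw [h, le_bot_iff] at hBR
  exact stab_ne_bot hBR

/-- the trace is not the pair stabiliser if its index is odd -/
theorem not_stab [Fintype F] (h2 : ringChar F ≠ 2) (h4 : 4 ≤ Fintype.card F)
    (hA : ConjComm A) (M K : Subgroup Q) (R : Subgroup (Lam F)) (hM : IsCoatom M)
    (hAM : ¬ A ≤ M) (hMR : M ⊓ A = lift e R) (hK : M.IsComplement' K)
    (hnn : ∃ a ∈ A, MulAut.conj a • (M ⊓ A) ≠ M ⊓ A) (hodd : ¬ 2 ∣ R.index) :
    R ≠ stab (Lam F) (f0 F) := by
  rintro rfl
  have hn : Fintype.card (OnePoint F) = Fintype.card F + 1 := Fintype.card_option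
  have h1 : ∀ g : Set.powersetCard (OnePoint F) 2, ∃ τ ∈ indT e K, τ • f0 F = g := fun g =>
    trans_indT e hA lam_unip.1 (f0 F) trans_pairs M K hM hAM hnn hK hMR g
  have h3 := card_dvd_of_points (indT e K) (points_of_pairs (by omega) (indT e K) (f0 F) h1)
  have h5 : Fintype.card F % 2 = 1 := FiniteField.odd_card_of_char_ne_two h2
  have h6 : 2 ∣ Nat.card (indT e K) := dvd_trans (by omega) h3
  have h7 := prime_dvd_indT e lam_unip.2 K 2 Nat.prime_two h6
  have h8 := prime_dvd A hA M K hM hAM hnn hK 2 Nat.prime_two h7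
  rw [relIndex_MR e hMR] at h8
  exact hodd h8

end

/-- a proper overgroup of the pair stabiliser -/
theorem over_data [Fintype F] {R : Subgroup (Lam F)} (hBR : stab (Lam F) (f0 F) ≤ R)
    (hR : R ≠ ⊤) (hne : R ≠ stab (Lam F) (f0 F)) :
    ∃ X : Subgroup (Perm (OnePoint F)), Over X ∧ (∀ b : F, tr b ∈ X → b = 0) ∧
      Nat.card X * R.index = Nat.card (Lam F) ∧
      ((∀ x : OnePoint F, ∃ g ∈ X, g ∞ = x) ∧
        Nat.card X = (Fintype.card F + 1) * Nat.card (torus F) ∨
      (Nat.card X = (Nat.card (torus F) + 2) * Nat.card (torus F) ∧ ringChar F ≠ 2)) := by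
  have hX := over_map hBR
  have hlt : stab (Lam F) (f0 F) < R := lt_of_le_of_ne hBR (Ne.symm hne)
  obtain ⟨g, hgB, hg⟩ := Set.exists_of_ssubset hlt
  have hgf : ((g : Lam F) : Perm (OnePoint F)) • f0 F ≠ f0 F := fun h => hg (mem_stab.2 h)
  obtain ⟨y, hy, hgy⟩ := exists_move hX (g := (g : Perm (OnePoint F))) ⟨g, hgB, rfl⟩ hgf
  have hXne : R.map (Lam F).subtype ≠ Lam F := by
    intro h1
    apply hR
    rw [eq_top_iff]
    intro x _
    have h2 : (x : Perm (OnePoint F)) ∈ R.map (Lam F).subtype := by rw [h1]; exact x.2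
    obtain ⟨z, hz, hzx⟩ := h2
    have : z = x := Subtype.ext hzx
    rwa [← this]
  have hV : ∀ b : F, tr b ∈ R.map (Lam F).subtype → b = 0 := by
    intro b hb
    by_contra hb0
    exact hXne (hX.eq_top_of_tr ⟨b, hb0, hb⟩)
  refine ⟨R.map (Lam F).subtype, hX, hV, ?_, ?_⟩
  · rw [← R.card_mul_index]
    congr 1
    exact (Nat.card_congr (R.equivMapOfInjective _ (Subgroup.subtype_injective _)).toEquiv).symm
  · rcases hX.transitive_or hV hy hgy with h | h
    · left
      refine ⟨h, ?_⟩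
      rw [card_eq_orbit _ ∞, hX.card_stab hV]
      congr 1
      have h1 : MulAction.orbit (R.map (Lam F).subtype) (∞ : OnePoint F) = Set.univ := by
        rw [Set.eq_univ_iff_forall]
        intro x
        obtain ⟨g, hg, hgx⟩ := h x
        exact ⟨⟨g, hg⟩, hgx⟩
      rw [h1, Set.ncard_univ, Nat.card_eq_fintype_card]
      exact Fintype.card_option
    · exact Or.inr h

theorem card_pairs [Fintype F] :
    (stab (Lam F) (f0 F)).index = (Fintype.card F + 1).choose 2 := by
  rw [index_stab (f0 F) trans_pairs]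
  have := Set.powersetCard.card (α := OnePoint F) (n := 2)
  rw [this, Nat.card_eq_fintype_card]
  congr 1
  exact Fintype.card_option

/-- the case `q = 5` -/
theorem five_case [Fintype F] (h5 : Fintype.card F = 5) {Q : Type u} [Group Q] [Finite Q]
    {A : Subgroup Q} (e : A ≃* Lam F) (hQ : MaxCompl Q) (hA : ConjComm A) : False := by
  have hs : IsSimpleGroup (Lam F) := lam_simple (by rw [Nat.card_eq_fintype_card, h5]; norm_num)
  have h2 : ringChar F ≠ 2 := by
    intro h
    have := FiniteField.even_card_of_char_two h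
    omega
  have ht := card_torus (F := F) h2
  have ht' : Nat.card (torus F) = 2 := by omega
  have hL : Nat.card (Lam F) = 60 := by rw [card_Lam, h5, ht']
  obtain ⟨M, K, R, hM, hAM, hBR, hR, hMR, hK, hnn⟩ := setup e (by omega) hQ hA
  have hdvd : R.index ∣ 15 := by
    have h3 := Subgroup.index_dvd_of_le hBR
    rwa [card_pairs, h5, show Nat.choose (5 + 1) 2 = 15 by decide] at h3
  have hodd : ¬ 2 ∣ R.index := fun h => by
    have := dvd_trans h hdvd
    omega
  have hne := not_stab e h2 (by omega) hA M K R hM hAM hMR hK hnn hodd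
  obtain ⟨X, hX, hV, hc, h | h⟩ := over_data hBR hR hne
  · rw [h.2, hL, h5, ht'] at hc
    have hi : R.index = 5 := by omega
    obtain ⟨ε⟩ := iso_A5 hL R hi
    exact no_alt (by norm_num) (e.trans ε) hQ hA
  · have := hX.small h2 h.1
    omega

end Pool.Agent.Work.MP_bc729a_al.L2
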