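import Pool.Agent.Work.MP_bc729a_al.Lift
import Pool.Agent.Work.MP_bc729a_al.ModE
import Pool.Agent.Work.MP_bc729a_al.ModT
import Pool.Agent.Work.MP_bc729a_al.ModY

/-! General part: from an `Aut`-invariant class of coatoms `B` of a simple group `S ≃* A ≤ Q` we get a
maximal subgroup `M` of `Q` with `M ⊓ A = lift e B`. -/

open scoped Pointwise
open Equiv

namespace Pool.Agent.Work.MP_bc729a_al.L2

universe u v

section gen

variable {Q : Type u} [Group Q] [Finite Q] {S : Type v} [Group S] {A : Subgroup Q}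
  (e : A ≃* S)

/-- coatoms of a nonabelian simple group are not normal -/
lemma not_normal_coatom [IsSimpleGroup S] {B : Subgroup S} (hB : IsCoatom B) (hB0 : B ≠ ⊥) :
    ∃ a : S, MulAut.conj a • B ≠ B := by
  by_contra hcon
  push Not at hcon
  have hN : B.Normal := by
    constructor
    intro x hx g
    have h1 := hcon g
    rw [← h1, mem_conj_smul]
    simpa [mul_assoc] using hx
  rcases hN.eq_bot_or_eq_top with h | h
  · exact hB0 h
  · exact hB.1 h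

/-- the conjugates of `B ≤ S` form an `Aut S`-invariant class -/
def AutInv (B : Subgroup S) : Prop :=
  ∀ α : S ≃* S, ∃ a : S, B.map α.toMonoidHom = MulAut.conj a • B

lemma lift_conj_ne {B : Subgroup S} (hnn : ∃ a : S, MulAut.conj a • B ≠ B) :
    ∃ a ∈ A, MulAut.conj a • lift e B ≠ lift e B := by
  obtain ⟨b, hb⟩ := hnn
  refine ⟨e.symm b, (e.symm b).2, ?_⟩
  rw [conj_smul_lift_mem e (e.symm b).2]
  intro h
  apply hb
  have := lift_injective e h
  simpa using this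

/-- a maximal subgroup of `Q` above (a lift of) `B`, not containing `A` -/
lemma exists_M_above (hA : ConjComm A) {B : Subgroup S} (hB : AutInv B)
    (hnn : ∃ a : S, MulAut.conj a • B ≠ B) :
    ∃ M : Subgroup Q, IsCoatom M ∧ ¬ A ≤ M ∧ lift e B ≤ M := by
  refine exists_max A (lift e B) hA (lift_le e _) (lift_conj_ne e hnn) ?_
  intro g hg
  obtain ⟨a, ha⟩ := hB (autOf e g hg)
  refine ⟨e.symm a, (e.symm a).2, ?_⟩
  rw [conj_smul_lift e g hg, ha, conj_smul_lift_mem e (e.symm a).2]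
  simp

/-- `exists_M_above` together with the trace on `A` -/
lemma exists_MR (hA : ConjComm A) {B : Subgroup S} (hB : AutInv B)
    (hnn : ∃ a : S, MulAut.conj a • B ≠ B) :
    ∃ (M : Subgroup Q) (R : Subgroup S), IsCoatom M ∧ ¬ A ≤ M ∧ B ≤ R ∧ R ≠ ⊤ ∧
      M ⊓ A = lift e R := by
  obtain ⟨M, hM, hAM, hBM⟩ := exists_M_above e hA hB hnn
  obtain ⟨R, hR⟩ := exists_lift e (M ⊓ A) inf_le_right
  refine ⟨M, R, hM, hAM, ?_, ?_, hR⟩
  · rw [← lift_mono e, ← hR]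
    exact le_inf hBM (lift_le e _)
  · rintro rfl
    apply hAM
    rw [lift_top] at hR
    rw [← hR]
    exact inf_le_left

lemma relIndex_MR {M : Subgroup Q} {R : Subgroup S} (h : M ⊓ A = lift e R) :
    M.relIndex A = R.index := by
  rw [← Subgroup.inf_relIndex_right, h, relIndex_lift]

/-- the case of a coatom `B` -/
lemma exists_MK_gen (hQ : MaxCompl Q) (hA : ConjComm A) {B : Subgroup S} (hco : IsCoatom B)
    (hB : AutInv B) (hnn : ∃ a : S, MulAut.conj a • B ≠ B) :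
    ∃ M K : Subgroup Q, IsCoatom M ∧ ¬ A ≤ M ∧ M ⊓ A = lift e B ∧ M.IsComplement' K ∧
      ∃ a ∈ A, MulAut.conj a • (M ⊓ A) ≠ M ⊓ A := by
  obtain ⟨M, R, hM, hAM, hBR, hR, hMR⟩ := exists_MR e hA hB hnn
  obtain ⟨K, hK⟩ := hQ M hM
  have h5 : R = B := by
    rcases eq_or_lt_of_le hBR with h | h
    · exact h.symm
    · exact absurd (hco.2 R h) hR
  subst h5
  refine ⟨M, K, hM, hAM, hMR, hK, ?_⟩
  rw [hMR]
  exact lift_conj_ne e hnn

end gen

section rel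

variable {Ω : Type v} {Λ : Subgroup (Perm Ω)}

/-- every automorphism of `Λ` is induced by a permutation -/
def AutInd (Λ : Subgroup (Perm Ω)) : Prop :=
  ∀ α : Λ ≃* Λ, ∃ σ : Perm Ω, ∀ x : Λ, ((α x : Λ) : Perm Ω) = σ * (x : Perm Ω) * σ⁻¹

/-- the centraliser of `Λ` in the symmetric group is trivial -/
def TrivCent (Λ : Subgroup (Perm Ω)) : Prop :=
  ∀ σ : Perm Ω, (∀ x : Λ, σ * (x : Perm Ω) * σ⁻¹ = x) → σ = 1

variable {Q : Type u} [Group Q] {A : Subgroup Q} (e : A ≃* Λ)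

/-- `y` normalises `A` and acts on it as conjugation by `σ` -/
def Rel (y : Q) (σ : Perm Ω) : Prop :=
  MulAut.conj y • A = A ∧ ∀ x x' : A, (x' : Q) = y * x * y⁻¹ →
    ((e x' : Λ) : Perm Ω) = σ * (e x : Perm Ω) * σ⁻¹

lemma rel_iff {y : Q} (h : MulAut.conj y • A = A) (σ : Perm Ω) :
    Rel e y σ ↔ ∀ x : Λ, ((autOf e y h x : Λ) : Perm Ω) = σ * (x : Perm Ω) * σ⁻¹ := by
  constructor
  · intro hr x
    obtain ⟨z, rfl⟩ := e.surjective x
    rw [autOf_apply]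
    exact hr.2 z _ rfl
  · intro hr
    refine ⟨h, fun x x' hx => ?_⟩
    have h1 := hr (e x)
    rw [autOf_apply] at h1
    have h2 : x' = conjAut y h x := Subtype.ext hx
    rw [h2, h1]

lemma exists_rel (hΛ : AutInd Λ) {y : Q} (h : MulAut.conj y • A = A) : ∃ σ, Rel e y σ := by
  obtain ⟨σ, hσ⟩ := hΛ (autOf e y h)
  exact ⟨σ, (rel_iff e h σ).2 hσ⟩

lemma rel_one : Rel e (1 : Q) 1 := by
  refine ⟨by simp, fun x x' hx => ?_⟩
  have : x' = x := Subtype.ext (by simpa using hx)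
  simp [this]

lemma rel_mul {y z : Q} {σ τ : Perm Ω} (h1 : Rel e y σ) (h2 : Rel e z τ) :
    Rel e (y * z) (σ * τ) := by
  refine ⟨by rw [map_mul, mul_smul, h2.1, h1.1], fun x x' hx => ?_⟩
  have hz : z * (x : Q) * z⁻¹ ∈ A := mem_of_smul_eq h2.1 x.2
  have h3 := h2.2 x ⟨_, hz⟩ rfl
  have h4 := h1.2 ⟨_, hz⟩ x' (by rw [hx]; simp [mul_assoc])
  rw [h4, h3]
  simp [mul_assoc]

lemma rel_inv {y : Q} {σ : Perm Ω} (h1 : Rel e y σ) : Rel e y⁻¹ σ⁻¹ := by
  refine ⟨by rw [map_inv, inv_smul_eq_iff, h1.1], fun x x' hx => ?_⟩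
  have h3 := h1.2 x' x (by rw [hx]; simp [mul_assoc])
  rw [h3]
  simp [mul_assoc]

lemma rel_pow {y : Q} {σ : Perm Ω} (h1 : Rel e y σ) (k : ℕ) : Rel e (y ^ k) (σ ^ k) := by
  induction k with
  | zero => simpa using rel_one e
  | succ k ih => rw [pow_succ, pow_succ]; exact rel_mul e ih h1

lemma rel_one_eq (hc : TrivCent Λ) {σ : Perm Ω} (h1 : Rel e (1 : Q) σ) : σ = 1 := by
  apply hc
  intro x
  obtain ⟨y, rfl⟩ := e.surjective x
  exact (h1.2 y y (by simp)).symm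

/-- the permutations induced by `K` -/
def indT (K : Subgroup Q) : Subgroup (Perm Ω) where
  carrier := {σ | ∃ y ∈ K, Rel e y σ}
  one_mem' := ⟨1, K.one_mem, rel_one e⟩
  mul_mem' := by
    rintro σ τ ⟨y, hy, h1⟩ ⟨z, hz, h2⟩
    exact ⟨y * z, K.mul_mem hy hz, rel_mul e h1 h2⟩
  inv_mem' := by
    rintro σ ⟨y, hy, h1⟩
    exact ⟨y⁻¹, K.inv_mem hy, rel_inv e h1⟩

lemma mem_indT {K : Subgroup Q} {σ : Perm Ω} : σ ∈ indT e K ↔ ∃ y ∈ K, Rel e y σ := Iff.rfl

lemma orderOf_dvd_of_rel (hc : TrivCent Λ) {y : Q} {σ : Perm Ω} (h : Rel e y σ) :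
    orderOf σ ∣ orderOf y := by
  apply orderOf_dvd_of_pow_eq_one
  apply rel_one_eq e hc
  have := rel_pow e h (orderOf y)
  rwa [pow_orderOf_eq_one] at this

lemma prime_dvd_indT [Finite Ω] [Finite Q] (hc : TrivCent Λ) (K : Subgroup Q) (q : ℕ) (hq : q.Prime)
    (h : q ∣ Nat.card (indT e K)) : q ∣ Nat.card K := by
  haveI : Fact q.Prime := ⟨hq⟩
  obtain ⟨σ, hσ⟩ := exists_prime_orderOf_dvd_card' (G := indT e K) q h
  obtain ⟨y, hy, hr⟩ := (mem_indT e).1 σ.2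
  have h1 := orderOf_dvd_of_rel e hc hr
  have h2 : orderOf (σ : Perm Ω) = q := by rw [← hσ, Subgroup.orderOf_coe]
  rw [h2] at h1
  refine h1.trans ?_
  have h3 : orderOf (⟨y, hy⟩ : K) = orderOf y := by
    rw [← Subgroup.orderOf_coe]
  rw [← h3]
  exact orderOf_dvd_natCard _

/-- elements of `indT` normalise `Λ` -/
lemma normalizes_of_mem_indT {K : Subgroup Q} {σ : Perm Ω} (h : σ ∈ indT e K) (x : Perm Ω)
    (hx : x ∈ Λ) : σ * x * σ⁻¹ ∈ Λ := by
  obtain ⟨y, hy, hA, hr⟩ := h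
  obtain ⟨z, hz⟩ := e.surjective ⟨x, hx⟩
  have h1 := hr z ⟨y * z * y⁻¹, mem_of_smul_eq hA z.2⟩ rfl
  rw [hz] at h1
  rw [← h1]
  exact (e _).2

end rel

end Pool.Agent.Work.MP_bc729a_al.L2
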