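import Pool.Agent.Work.MP_bc729a_al.L2.Moeb

/-! Overgroups `X` of the stabiliser of the pair `{0, ∞}` in `PSL(2, F)`: first reductions. -/

open Equiv OnePoint
open scoped MatrixGroups

namespace Pool.Agent.Work.MP_bc729a_al.L2

universe v

variable {F : Type v} [Field F] [DecidableEq F]

/-- `X` lies between the stabiliser of `{0, ∞}` and `Lam F` -/
structure Over (X : Subgroup (Perm (OnePoint F))) : Prop where
  le : X ≤ Lam F
  dl : ∀ a : Fˣ, dl a ∈ X
  ww : (ww : Perm (OnePoint F)) ∈ X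

lemma Over.eq_top_of_tr [Finite F] {X : Subgroup (Perm (OnePoint F))} (h : Over X)
    (hex : ∃ b : F, b ≠ 0 ∧ tr b ∈ X) : X = Lam F := by
  obtain ⟨b, hb, hbX⟩ := hex
  have hsq : ∀ s : F, tr (s ^ 2 * b) ∈ X := by
    intro s
    by_cases hs : s = 0
    · subst hs
      have : (0 : F) ^ 2 * b = 0 := by ring
      rw [this, tr_zero]
      exact one_mem _
    · have h1 := dl_tr (Units.mk0 s hs) b
      rw [Units.val_mk0] at h1
      rw [← h1]
      exact mul_mem (mul_mem (h.dl _) hbX) (inv_mem (h.dl _))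
  have hall : ∀ x : F, tr (x * b) ∈ X := by
    intro x
    by_cases h2 : ringChar F = 2
    · haveI := Fintype.ofFinite F
      obtain ⟨s, hs⟩ := FiniteField.isSquare_of_char_two h2 x
      rw [hs, ← pow_two]
      exact hsq s
    · have h2' : (2 : F) ≠ 0 := Ring.two_ne_zero h2
      have h3 : x * b = ((x + 1) / 2) ^ 2 * b + (-(((x - 1) / 2) ^ 2 * b)) := by
        field_simp
        ring
      rw [h3, tr_add, tr_neg]
      exact mul_mem (hsq _) (inv_mem (hsq _))
  have hall' : ∀ x : F, tr x ∈ X := by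
    intro x
    have := hall (x / b)
    rwa [div_mul_cancel₀ _ hb] at this
  apply le_antisymm h.le
  have hfix : ∀ g ∈ Lam F, g ∞ = ∞ → g ∈ X := by
    intro g hg hgi
    obtain ⟨a, c, rfl⟩ := fix_infty hg hgi
    exact mul_mem (hall' c) (h.dl a)
  intro g hg
  induction hgi : g ∞ using OnePoint.rec with
  | infty => exact hfix g hg hgi
  | coe y =>
    have h1 : L2.ww * tr (-y) * g ∈ X := by
      apply hfix
      · exact mul_mem (mul_mem ww_mem (tr_mem _)) hg
      · simp [Perm.mul_apply, hgi]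
    have h2 : g = (tr (-y))⁻¹ * (L2.ww)⁻¹ * (L2.ww * tr (-y) * g) := by group
    rw [h2]
    exact mul_mem (mul_mem (inv_mem (hall' _)) (inv_mem h.ww)) h1

lemma Over.stab_infty {X : Subgroup (Perm (OnePoint F))} (h : Over X)
    (hV : ∀ b : F, tr b ∈ X → b = 0) {g : Perm (OnePoint F)} (hg : g ∈ X) (hgi : g ∞ = ∞) :
    ∃ a : Fˣ, g = L2.dl a := by
  obtain ⟨a, b, rfl⟩ := fix_infty (h.le hg) hgi
  have h1 : tr b ∈ X := by
    have := mul_mem hg (inv_mem (h.dl a))
    rwa [mul_inv_cancel_right] at this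
  exact ⟨a, by rw [hV b h1, tr_zero, one_mul]⟩

/-- the pairing of a transitive overgroup without translations -/
lemma Over.pairing {X : Subgroup (Perm (OnePoint F))} (h : Over X)
    (hV : ∀ b : F, tr b ∈ X → b = 0) (htr : ∀ x : OnePoint F, ∃ g ∈ X, g ∞ = x) :
    ∃ π : OnePoint F → OnePoint F, (∀ g ∈ X, ∀ x, π (g x) = g (π x)) ∧
      π ∞ = ((0 : F) : OnePoint F) ∧ π ((0 : F) : OnePoint F) = ∞ ∧ (∀ x, π (π x) = x) ∧
      ∀ x, π x ≠ x := by
  choose g hg hgx using htr
  have key : ∀ k ∈ X, g (k ∞) ((0 : F) : OnePoint F) = k ((0 : F) : OnePoint F) := by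
    intro k hk
    have h1 : (k⁻¹ * g (k ∞)) ∞ = ∞ := by
      rw [Perm.mul_apply, hgx]; simp
    obtain ⟨a, ha⟩ := h.stab_infty hV (mul_mem (inv_mem hk) (hg _)) h1
    have h2 : g (k ∞) = k * L2.dl a := by rw [← ha]; group
    rw [h2]
    simp
  refine ⟨fun x => g x ((0 : F) : OnePoint F), ?_, ?_, ?_, ?_, ?_⟩
  · intro k hk x
    have h1 := key (k * g x) (mul_mem hk (hg x))
    rw [Perm.mul_apply, hgx, Perm.mul_apply] at h1
    exact h1
  · have h1 := key 1 (one_mem _)
    simpa using h1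
  · have h1 := key L2.ww h.ww
    simpa using h1
  · intro x
    have h1 := key (g x * L2.ww) (mul_mem (hg x) h.ww)
    rw [Perm.mul_apply, ww_infty, Perm.mul_apply, ww_zero, hgx] at h1
    exact h1
  · intro x hx
    have h1 : g x ((0 : F) : OnePoint F) = g x ∞ := by rw [hgx]; exact hx
    exact OnePoint.coe_ne_infty _ ((g x).injective h1)

end Pool.Agent.Work.MP_bc729a_al.L2
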