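import Pool.Agent.Work.MP_bc729a_al.L2.MaxA

/-! The pairing: contradiction for `q` even and for `q ≥ 13` odd. -/

open Equiv OnePoint
open scoped MatrixGroups

namespace Pool.Agent.Work.MP_bc729a_al.L2

universe v

variable {F : Type v} [Field F] [DecidableEq F]

/-- a pairing of the projective line commuting with the torus -/
structure IsPairing (X : Subgroup (Perm (OnePoint F))) (π : OnePoint F → OnePoint F) : Prop where
  comm : ∀ g ∈ X, ∀ x, π (g x) = g (π x)
  infty : π ∞ = ((0 : F) : OnePoint F)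
  zero : π ((0 : F) : OnePoint F) = ∞
  invol : ∀ x, π (π x) = x
  free : ∀ x, π x ≠ x

variable {X : Subgroup (Perm (OnePoint F))} {π : OnePoint F → OnePoint F}

lemma IsPairing.coe (hπ : IsPairing X π) {y : F} (hy : y ≠ 0) : ∃ z : F, z ≠ 0 ∧
    π (y : OnePoint F) = (z : OnePoint F) := by
  induction h : π (y : OnePoint F) using OnePoint.rec with
  | infty =>
    exfalso
    have h1 := hπ.invol (y : OnePoint F)
    rw [h, hπ.infty] at h1
    exact hy (OnePoint.coe_injective h1).symm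
  | coe z =>
    refine ⟨z, ?_, rfl⟩
    rintro rfl
    have h1 := hπ.invol (y : OnePoint F)
    rw [h, hπ.zero] at h1
    exact OnePoint.infty_ne_coe _ h1

lemma IsPairing.sq_mul (hπ : IsPairing X π) (hX : Over X) {a : F} (ha : a ≠ 0) {y z : F}
    (h : π (y : OnePoint F) = (z : OnePoint F)) :
    π ((a ^ 2 * y : F) : OnePoint F) = ((a ^ 2 * z : F) : OnePoint F) := by
  have h1 := hπ.comm (dl (Units.mk0 a ha)) (hX.dl _) (y : OnePoint F)
  rwa [dl_coe, h, dl_coe] at h1

lemma IsPairing.sq_eq_one (hπ : IsPairing X π) (hX : Over X) {a y : F} (ha : a ≠ 0)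
    (h : π (y : OnePoint F) = ((a ^ 2 * y : F) : OnePoint F)) (hy : y ≠ 0) :
    (a ^ 2) ^ 2 = 1 := by
  have h1 := hπ.sq_mul hX ha h
  rw [← h, hπ.invol] at h1
  have h2 : y = a ^ 2 * (a ^ 2 * y) := OnePoint.coe_injective h1
  have h3 : y * ((a ^ 2) ^ 2 - 1) = 0 := by
    linear_combination -h2
  rcases mul_eq_zero.1 h3 with h4 | h4
  · exact absurd h4 hy
  · exact sub_eq_zero.1 h4

lemma IsPairing.sq_eq_neg_one (hπ : IsPairing X π) (hX : Over X) {a y : F} (ha : a ≠ 0)
    (h : π (y : OnePoint F) = ((a ^ 2 * y : F) : OnePoint F)) (hy : y ≠ 0) :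
    a ^ 2 = -1 := by
  have h1 := hπ.sq_eq_one hX ha h hy
  have h2 : (a ^ 2 - 1) * (a ^ 2 + 1) = 0 := by linear_combination h1
  rcases mul_eq_zero.1 h2 with h3 | h3
  · exfalso
    have h4 : a ^ 2 = 1 := sub_eq_zero.1 h3
    rw [h4, one_mul] at h
    exact hπ.free _ h
  · exact eq_neg_of_add_eq_zero_left h3

/-- there is no pairing in characteristic two -/
lemma IsPairing.false_of_two [Finite F] (hX : Over X) (hπ : IsPairing X π)
    (h2 : ringChar F = 2) : False := by
  have := Fintype.ofFinite F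
  obtain ⟨c, hc, hc1⟩ := hπ.coe (one_ne_zero (α := F))
  obtain ⟨s, hs⟩ := FiniteField.isSquare_of_char_two h2 c
  have hs0 : s ≠ 0 := by rintro rfl; simp at hs; exact hc hs
  have h1 := hπ.sq_eq_neg_one hX hs0 (y := 1) (by rw [mul_one, pow_two, ← hs]; exact hc1)
    one_ne_zero
  have h3 : c = 1 := by
    rw [hs, ← pow_two, h1]
    have : CharP F 2 := by rw [← h2]; infer_instance
    exact CharTwo.neg_eq 1
  rw [h3] at hc1
  exact hπ.free _ hc1

lemma isSquare_mul_of_not [Finite F] (h2 : ringChar F ≠ 2) {a b : F} (ha : ¬ IsSquare a)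
    (hb : ¬ IsSquare b) : IsSquare (a * b) := by
  have := Fintype.ofFinite F
  have ha0 : a ≠ 0 := by rintro rfl; exact ha (IsSquare.zero)
  have hb0 : b ≠ 0 := by rintro rfl; exact hb (IsSquare.zero)
  rw [← quadraticChar_one_iff_isSquare (mul_ne_zero ha0 hb0), map_mul,
    (quadraticChar_neg_one_iff_not_isSquare).2 ha, (quadraticChar_neg_one_iff_not_isSquare).2 hb]
  norm_num

/-- the shape of the pairing -/
lemma IsPairing.shape [Finite F] (hX : Over X) (hπ : IsPairing X π) (h2 : ringChar F ≠ 2) :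
    ∃ c : F, c ≠ 0 ∧ c ≠ 1 ∧ π ((1 : F) : OnePoint F) = (c : OnePoint F) ∧
      ((c = -1) ∨ ¬ IsSquare c) ∧
      ∀ y : F, y ≠ 0 → π (y : OnePoint F) = ((c * y : F) : OnePoint F) ∨
        π (y : OnePoint F) = ((c⁻¹ * y : F) : OnePoint F) := by
  obtain ⟨c, hc, hc1⟩ := hπ.coe (one_ne_zero (α := F))
  have hc1' : c ≠ 1 := by
    rintro rfl
    exact hπ.free _ hc1
  have hcsq : IsSquare c → c = -1 := by
    rintro ⟨s, hs⟩
    have hs0 : s ≠ 0 := by rintro rfl; simp at hs; exact hc hs
    have h1 := hπ.sq_eq_neg_one hX hs0 (y := 1) (by rw [mul_one, pow_two, ← hs]; exact hc1)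
      one_ne_zero
    rw [hs, ← pow_two, h1]
  refine ⟨c, hc, hc1', hc1, ?_, ?_⟩
  · by_cases h : IsSquare c
    · exact Or.inl (hcsq h)
    · exact Or.inr h
  intro y hy
  by_cases hy2 : IsSquare y
  · left
    obtain ⟨a, rfl⟩ := hy2
    have ha : a ≠ 0 := by rintro rfl; simp at hy
    have h1 := hπ.sq_mul hX ha hc1
    rw [mul_one] at h1
    rw [← pow_two, mul_comm c]
    exact h1
  by_cases hcs : IsSquare c
  · left
    have hcm := hcsq hcs
    obtain ⟨z, hz, hyz⟩ := hπ.coe hy
    have hz2 : ¬ IsSquare z := by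
      rintro ⟨t, ht⟩
      have ht0 : t ≠ 0 := by rintro rfl; simp at ht; exact hz ht
      have h1 := hπ.sq_mul hX ht0 hc1
      rw [mul_one, pow_two, ← ht, ← hyz, hπ.invol] at h1
      have h3 : y = z * c := OnePoint.coe_injective h1
      apply hy2
      rw [h3]
      exact IsSquare.mul ⟨t, ht⟩ hcs
    obtain ⟨s, hs⟩ := isSquare_mul_of_not h2 hz2 hy2
    have hs0 : s ≠ 0 := by
      rintro rfl
      simp at hs
      rcases hs with h | h
      · exact hz h
      · exact hy h
    have ha : s / y ≠ 0 := div_ne_zero hs0 hy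
    have h3 : z = (s / y) ^ 2 * y := by
      field_simp
      linear_combination hs
    have h4 := hπ.sq_eq_neg_one hX ha (by rw [← h3]; exact hyz) hy
    rw [hyz, h3, h4, hcm]
  · right
    obtain ⟨s, hs⟩ := isSquare_mul_of_not h2 hy2 hcs
    have hs0 : s ≠ 0 := by
      rintro rfl
      simp at hs
      rcases hs with h | h
      · exact hy h
      · exact hc h
    have ha : s / c ≠ 0 := div_ne_zero hs0 hc
    have hcc : π (c : OnePoint F) = ((1 : F) : OnePoint F) := by rw [← hc1, hπ.invol]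
    have h1 := hπ.sq_mul hX ha hcc
    have e1 : (s / c) ^ 2 * c = y := by field_simp; linear_combination -hs
    have e2 : (s / c) ^ 2 * 1 = c⁻¹ * y := by field_simp; linear_combination -hs
    rw [e1, e2] at h1
    exact h1

end Pool.Agent.Work.MP_bc729a_al.L2
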