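import Pool.Agent.Work.MP_bc729a_al.L2.MaxB

/-! The pairing: contradiction for `q ≥ 13` odd. -/

open Equiv OnePoint
open scoped MatrixGroups

namespace Pool.Agent.Work.MP_bc729a_al.L2

universe v

variable {F : Type v} [Field F] [DecidableEq F]

variable {X : Subgroup (Perm (OnePoint F))} {π : OnePoint F → OnePoint F}

/-- elements of `Lam F` with `∞ ↦ 1`, `0 ↦ c` -/
lemma shape_of_one_c {h : Perm (OnePoint F)} (hh : h ∈ Lam F) {c : F}
    (h1 : h ∞ = ((1 : F) : OnePoint F)) (h0 : h ((0 : F) : OnePoint F) = (c : OnePoint F)) :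
    ∃ k : F, k ≠ 0 ∧ h ((-k⁻¹ : F) : OnePoint F) = ∞ ∧
      ∀ x : F, k * x + 1 ≠ 0 → h (x : OnePoint F) = (((k * x + c) / (k * x + 1) : F) : OnePoint F) := by
  obtain ⟨m, rfl⟩ := hh
  rw [phi_infty] at h1
  have hγ : m 1 0 ≠ 0 := by
    intro hcon
    rw [if_pos hcon] at h1
    exact OnePoint.infty_ne_coe _ h1
  rw [if_neg hγ] at h1
  have hα : m 0 0 = m 1 0 := by
    have := OnePoint.coe_injective h1
    rwa [div_eq_one_iff_eq hγ] at this
  rw [phi_coe] at h0
  have hδ : m 1 1 ≠ 0 := by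
    intro hcon
    rw [if_pos (by rw [hcon]; ring)] at h0
    exact OnePoint.infty_ne_coe _ h0
  rw [if_neg (by rwa [mul_zero, zero_add])] at h0
  have hβ : m 0 1 = c * m 1 1 := by
    have := OnePoint.coe_injective h0
    rw [mul_zero, mul_zero, zero_add, zero_add, div_eq_iff hδ] at this
    exact this
  refine ⟨m 1 0 / m 1 1, div_ne_zero hγ hδ, ?_, ?_⟩
  · rw [phi_coe, if_pos]
    field_simp
    ring
  · intro x hx
    have hx' : m 1 0 * x + m 1 1 ≠ 0 := by
      intro hcon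
      apply hx
      field_simp
      linear_combination hcon
    rw [phi_coe, if_neg hx', hα, hβ]
    congr 1
    field_simp

lemma IsPairing.eqn (hX : Over X) (hπ : IsPairing X π)
    (htr : ∀ x : OnePoint F, ∃ g ∈ X, g ∞ = x) {c : F} (hc : c ≠ 0)
    (hc1 : π ((1 : F) : OnePoint F) = (c : OnePoint F))
    (hshape : ∀ y : F, y ≠ 0 → π (y : OnePoint F) = ((c * y : F) : OnePoint F) ∨
        π (y : OnePoint F) = ((c⁻¹ * y : F) : OnePoint F))
    {a : F} (ha : a ≠ 0) (h1 : 1 - a ^ 2 ≠ 0) (h2 : c - a ^ 2 ≠ 0) (h3 : 1 - a ^ 2 * c ≠ 0) :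
    (1 - a ^ 2) ^ 2 = (c - a ^ 2) * (1 - a ^ 2 * c) ∨
      c ^ 2 * (1 - a ^ 2) ^ 2 = (c - a ^ 2) * (1 - a ^ 2 * c) := by
  obtain ⟨h, hh, hh1⟩ := htr ((1 : F) : OnePoint F)
  have hh0 : h ((0 : F) : OnePoint F) = (c : OnePoint F) := by
    rw [← hπ.infty, ← hπ.comm h hh, hh1, hc1]
  obtain ⟨k, hk, hk1, hk2⟩ := shape_of_one_c (hX.le hh) hh1 hh0
  set g := h * dl (Units.mk0 a ha) * h⁻¹ with hg
  have hgX : g ∈ X := mul_mem (mul_mem hh (hX.dl _)) (inv_mem hh)
  have e1 : h⁻¹ ∞ = ((-k⁻¹ : F) : OnePoint F) := by rw [← hk1]; simp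
  have hcc : c * (-k⁻¹ * k) + c = 0 := by field_simp; ring
  have e2 : h⁻¹ ((0 : F) : OnePoint F) = ((-(c * k⁻¹) : F) : OnePoint F) := by
    by_cases hc' : c = 1
    · exfalso
      rw [hc'] at hc1
      exact hπ.free _ hc1
    have hne : k * -(c * k⁻¹) + 1 ≠ 0 := by
      intro hcon
      apply hc'
      have : k * (c * k⁻¹) = c := by field_simp
      linear_combination -hcon - this
    have h5 := hk2 (-(c * k⁻¹)) hne
    have h6 : (k * -(c * k⁻¹) + c) / (k * -(c * k⁻¹) + 1) = 0 := by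
      rw [div_eq_zero_iff]
      left
      field_simp
      ring
    rw [h6] at h5
    rw [← h5]; simp
  have g1 : g ∞ = (((c - a ^ 2) / (1 - a ^ 2) : F) : OnePoint F) := by
    rw [hg, Perm.mul_apply, Perm.mul_apply, e1, dl_coe, Units.val_mk0]
    have hne : k * (a ^ 2 * -k⁻¹) + 1 = 1 - a ^ 2 := by field_simp; ring
    rw [hk2 _ (by rw [hne]; exact h1), hne]
    congr 2
    field_simp
    ring
  have g0 : g ((0 : F) : OnePoint F) = ((c * (1 - a ^ 2) / (1 - a ^ 2 * c) : F) : OnePoint F) := by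
    rw [hg, Perm.mul_apply, Perm.mul_apply, e2, dl_coe, Units.val_mk0]
    have hne : k * (a ^ 2 * -(c * k⁻¹)) + 1 = 1 - a ^ 2 * c := by field_simp; ring
    rw [hk2 _ (by rw [hne]; exact h3), hne]
    congr 2
    field_simp
    ring
  have hy : (c - a ^ 2) / (1 - a ^ 2) ≠ 0 := div_ne_zero h2 h1
  have h4 : π (((c - a ^ 2) / (1 - a ^ 2) : F) : OnePoint F) =
      ((c * (1 - a ^ 2) / (1 - a ^ 2 * c) : F) : OnePoint F) := by
    rw [← g1, hπ.comm g hgX, hπ.infty, g0]
  have h3' : 1 - c * a ^ 2 ≠ 0 := by rwa [mul_comm c]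
  rcases hshape _ hy with h5 | h5
  · left
    rw [h4] at h5
    have h6 := OnePoint.coe_injective h5
    field_simp at h6
    linear_combination h6
  · right
    rw [h4] at h5
    have h6 := OnePoint.coe_injective h5
    field_simp at h6
    linear_combination h6

section poly

open Polynomial

lemma card_le_of_poly {K : Type v} [Field K] [Fintype K] (P : K[X]) (hP : P ≠ 0) (n : ℕ)
    (hdeg : P.natDegree ≤ n) (hroot : ∀ a : K, a ≠ 0 → P.eval a = 0) :
    Fintype.card K ≤ n + 1 := by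
  classical
  have h1 : (Finset.univ.erase (0 : K)) ⊆ P.roots.toFinset := by
    intro a ha
    rw [Finset.mem_erase] at ha
    rw [Multiset.mem_toFinset, mem_roots hP]
    exact hroot a ha.1
  have h2 := Finset.card_le_card h1
  rw [Finset.card_erase_of_mem (Finset.mem_univ _), Finset.card_univ] at h2
  have h3 := Multiset.toFinset_card_le P.roots
  have h4 := P.card_roots'
  omega

lemma card_le_poly10 {K : Type v} [Field K] [Fintype K] (c : K) (hc : c ≠ 0)
    (h : ∀ a : K, a ≠ 0 → (a ^ 2 - 1) * (a ^ 4 - (1 + c) * a ^ 2 + 1) *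
      (c * a ^ 4 - (1 + c) * a ^ 2 + c) = 0) : Fintype.card K ≤ 11 := by
  have hP1 : (X ^ 2 - 1 : K[X]) ≠ 0 := by
    intro h
    have := congrArg (fun q : K[X] => q.coeff 2) h
    simp [coeff_one] at this
  have hP2 : (X ^ 4 - C (1 + c) * X ^ 2 + 1 : K[X]) ≠ 0 := by
    intro h
    have := congrArg (fun q : K[X] => q.coeff 4) h
    simp [coeff_one, coeff_X_pow, coeff_C_mul, -map_add] at this
  have hP3 : (C c * X ^ 4 - C (1 + c) * X ^ 2 + C c : K[X]) ≠ 0 := by
    intro h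
    have := congrArg (fun q : K[X] => q.coeff 4) h
    simp [coeff_X_pow, coeff_C_mul, coeff_C, -map_add] at this
    exact hc this
  refine card_le_of_poly ((X ^ 2 - 1) * (X ^ 4 - C (1 + c) * X ^ 2 + 1) *
    (C c * X ^ 4 - C (1 + c) * X ^ 2 + C c)) (mul_ne_zero (mul_ne_zero hP1 hP2) hP3) 10 ?_ ?_
  · have d1 : (X ^ 2 - 1 : K[X]).natDegree ≤ 2 := by compute_degree
    have d2 : (X ^ 4 - C (1 + c) * X ^ 2 + 1 : K[X]).natDegree ≤ 4 := by compute_degree
    have d3 : (C c * X ^ 4 - C (1 + c) * X ^ 2 + C c : K[X]).natDegree ≤ 4 := by compute_degree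
    exact natDegree_mul_le.trans (add_le_add (natDegree_mul_le.trans (add_le_add d1 d2)) d3)
  · intro a ha
    simp only [eval_mul, eval_sub, eval_add, eval_pow, eval_X, eval_C, eval_one]
    exact h a ha

lemma card_le_poly8 {K : Type v} [Field K] [Fintype K]
    (h : ∀ a : K, a ≠ 0 → (a ^ 2 - 1) * (a ^ 2 + 1) * (a ^ 4 + 1) = 0) :
    Fintype.card K ≤ 11 := by
  have hP1 : (X ^ 2 - 1 : K[X]) ≠ 0 := by
    intro h
    have := congrArg (fun q : K[X] => q.coeff 2) h
    simp [coeff_one] at this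
  have hP2 : (X ^ 2 + 1 : K[X]) ≠ 0 := by
    intro h
    have := congrArg (fun q : K[X] => q.coeff 2) h
    simp [coeff_one] at this
  have hP3 : (X ^ 4 + 1 : K[X]) ≠ 0 := by
    intro h
    have := congrArg (fun q : K[X] => q.coeff 4) h
    simp [coeff_one] at this
  have h1 := card_le_of_poly ((X ^ 2 - 1) * (X ^ 2 + 1) * (X ^ 4 + 1))
    (mul_ne_zero (mul_ne_zero hP1 hP2) hP3) 8 ?_ ?_
  · omega
  · have d1 : (X ^ 2 - 1 : K[X]).natDegree ≤ 2 := by compute_degree
    have d2 : (X ^ 2 + 1 : K[X]).natDegree ≤ 2 := by compute_degree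
    have d3 : (X ^ 4 + 1 : K[X]).natDegree ≤ 4 := by compute_degree
    exact natDegree_mul_le.trans (add_le_add (natDegree_mul_le.trans (add_le_add d1 d2)) d3)
  · intro a ha
    simp only [eval_mul, eval_sub, eval_add, eval_pow, eval_X, eval_C, eval_one]
    exact h a ha

end poly

/-- `q ≤ 11` -/
lemma IsPairing.card_le [Fintype F] (hX : Over X) (hπ : IsPairing X π)
    (htr : ∀ x : OnePoint F, ∃ g ∈ X, g ∞ = x) (h2 : ringChar F ≠ 2) : Fintype.card F ≤ 11 := by
  obtain ⟨c, hc, hc', hc1, hcs, hshape⟩ := hπ.shape hX h2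
  have h5 : (1 - c) ≠ 0 := sub_ne_zero.2 (Ne.symm hc')
  rcases hcs with hcm | hcs
  · apply card_le_poly8
    intro a ha
    by_cases h1 : 1 - a ^ 2 = 0
    · have : a ^ 2 - 1 = 0 := by linear_combination -h1
      rw [this]; ring
    by_cases h3 : c - a ^ 2 = 0
    · have : a ^ 2 + 1 = 0 := by rw [hcm] at h3; linear_combination -h3
      rw [this]; ring
    by_cases h4 : 1 - a ^ 2 * c = 0
    · have : a ^ 2 + 1 = 0 := by rw [hcm] at h4; linear_combination h4
      rw [this]; ring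
    have h6 : (1 - c) * (a ^ 4 + 1) = 0 := by
      rcases hπ.eqn hX htr hc hc1 hshape ha h1 h3 h4 with h | h
      · rw [hcm] at h ⊢
        linear_combination h
      · rw [hcm] at h ⊢
        linear_combination h
    rw [(mul_eq_zero.1 h6).resolve_left h5]; ring
  · apply card_le_poly10 c hc
    intro a ha
    by_cases h1 : 1 - a ^ 2 = 0
    · have : a ^ 2 - 1 = 0 := by linear_combination -h1
      rw [this]; ring
    by_cases h3 : c - a ^ 2 = 0
    · exact absurd ⟨a, by linear_combination h3⟩ hcs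
    by_cases h4 : 1 - a ^ 2 * c = 0
    · refine absurd ⟨a⁻¹, ?_⟩ hcs
      field_simp
      linear_combination -h4
    rcases hπ.eqn hX htr hc hc1 hshape ha h1 h3 h4 with h | h
    · have h6 : (1 - c) * (a ^ 4 - (1 + c) * a ^ 2 + 1) = 0 := by linear_combination h
      have h7 := (mul_eq_zero.1 h6).resolve_left h5
      rw [h7]; ring
    · have h6 : (1 - c) * (c * a ^ 4 - (1 + c) * a ^ 2 + c) = 0 := by linear_combination -h
      have h7 := (mul_eq_zero.1 h6).resolve_left h5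
      rw [h7]; ring

end Pool.Agent.Work.MP_bc729a_al.L2
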