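import Pool.Agent.Work.MP_bc729a_al.L2.Card
import Pool.Agent.Work.MP_bc729a_al.L2.MaxC

/-! Orbits of overgroups of the stabiliser of `{0, ∞}`. -/

open Equiv OnePoint
open scoped MatrixGroups

namespace Pool.Agent.Work.MP_bc729a_al.L2

universe v

variable {F : Type v} [Field F] [DecidableEq F] {X : Subgroup (Perm (OnePoint F))}

lemma Over.mem_orbit_zero (hX : Over X) : ∃ g ∈ X, g (∞ : OnePoint F) = ((0 : F) : OnePoint F) :=
  ⟨L2.ww, hX.ww, ww_infty⟩

lemma Over.orbit_sq (hX : Over X) {y : F} (hy : ∃ g ∈ X, g (∞ : OnePoint F) = (y : OnePoint F))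
    {a : F} (ha : a ≠ 0) : ∃ g ∈ X, g (∞ : OnePoint F) = ((a ^ 2 * y : F) : OnePoint F) := by
  obtain ⟨g, hg, hgy⟩ := hy
  exact ⟨L2.dl (Units.mk0 a ha) * g, mul_mem (hX.dl _) hg, by
    rw [Perm.mul_apply, hgy, dl_coe, Units.val_mk0]⟩

/-- in characteristic two an overgroup moving `∞` outside `{0, ∞}` is transitive -/
lemma Over.trans_two [Finite F] (hX : Over X) (h2 : ringChar F = 2) {y : F} (hy : y ≠ 0)
    (hgy : ∃ g ∈ X, g (∞ : OnePoint F) = (y : OnePoint F)) :
    ∀ x : OnePoint F, ∃ g ∈ X, g ∞ = x := by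
  have := Fintype.ofFinite F
  intro x
  induction x using OnePoint.rec with
  | infty => exact ⟨1, one_mem _, rfl⟩
  | coe x =>
    by_cases hx : x = 0
    · subst hx; exact hX.mem_orbit_zero
    · obtain ⟨s, hs⟩ := FiniteField.isSquare_of_char_two h2 (x / y)
      have hs0 : s ≠ 0 := by
        rintro rfl
        rw [mul_zero] at hs
        exact div_ne_zero hx hy hs
      have h1 := hX.orbit_sq hgy hs0
      have h3 : s ^ 2 * y = x := by
        rw [pow_two, ← hs]; field_simp
      rwa [h3] at h1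

/-- if `-1` is not a square, an overgroup moving `∞` outside `{0, ∞}` is transitive -/
lemma Over.trans_neg [Finite F] (hX : Over X) (hneg : ¬ IsSquare (-1 : F)) {y : F} (hy : y ≠ 0)
    (hgy : ∃ g ∈ X, g (∞ : OnePoint F) = (y : OnePoint F)) :
    ∀ x : OnePoint F, ∃ g ∈ X, g ∞ = x := by
  have := Fintype.ofFinite F
  intro x
  induction x using OnePoint.rec with
  | infty => exact ⟨1, one_mem _, rfl⟩
  | coe x =>
    by_cases hx : x = 0
    · subst hx; exact hX.mem_orbit_zero
    by_cases hsq : IsSquare (x / y)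
    · obtain ⟨s, hs⟩ := hsq
      have hs0 : s ≠ 0 := by
        rintro rfl
        rw [mul_zero] at hs
        exact div_ne_zero hx hy hs
      have h1 := hX.orbit_sq hgy hs0
      have h3 : s ^ 2 * y = x := by
        rw [pow_two, ← hs]; field_simp
      rwa [h3] at h1
    · -- `x / (-1/y)` is a square
      obtain ⟨s, hs⟩ := isSquare_mul_of_not (by
        intro h2
        exact hneg (FiniteField.isSquare_of_char_two h2 _)) hsq hneg
      have hs0 : s ≠ 0 := by
        rintro rfl
        rw [mul_zero, mul_neg_one, neg_eq_zero] at hs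
        exact div_ne_zero hx hy hs
      obtain ⟨g, hg, hgy'⟩ := hgy
      have h0 : ∃ g ∈ X, g (∞ : OnePoint F) = ((-y⁻¹ : F) : OnePoint F) :=
        ⟨L2.ww * g, mul_mem hX.ww hg, by rw [Perm.mul_apply, hgy', ww_coe hy]⟩
      have h1 := hX.orbit_sq h0 (a := s * y) (mul_ne_zero hs0 hy)
      have h3 : (s * y) ^ 2 * (-y⁻¹) = x := by
        have h4 : s * s = -(x / y) := by rw [← hs]; ring
        calc (s * y) ^ 2 * (-y⁻¹) = (s * s) * (y ^ 2 * (-y⁻¹)) := by ring
          _ = -(x / y) * (y ^ 2 * (-y⁻¹)) := by rw [h4]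
          _ = x := by field_simp
      rwa [h3] at h1

lemma ncard_sq_orbit {y : F} (hy : y ≠ 0) :
    {x : OnePoint F | ∃ a : Fˣ, x = (((a : F) ^ 2 * y : F) : OnePoint F)}.ncard =
      Nat.card (torus F) := by
  rw [← Nat.card_coe_set_eq]
  apply Nat.card_congr
  symm
  refine Equiv.ofBijective (fun g : torus F => ⟨(g : Perm (OnePoint F)) (y : OnePoint F), ?_⟩)
    ⟨?_, ?_⟩
  · obtain ⟨a, ha⟩ := g.2
    refine ⟨a, ?_⟩
    rw [← ha]
    exact dl_coe a y
  · rintro ⟨_, a, rfl⟩ ⟨_, b, rfl⟩ h
    have h1 : dl a (y : OnePoint F) = dl b (y : OnePoint F) := congrArg Subtype.val h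
    rw [dl_coe, dl_coe] at h1
    have h2 : (a : F) ^ 2 * y = (b : F) ^ 2 * y := OnePoint.coe_injective h1
    have h3 : (a : F) ^ 2 = (b : F) ^ 2 := mul_right_cancel₀ hy h2
    apply Subtype.ext
    change dl a = dl b
    ext x
    induction x using OnePoint.rec with
    | infty => simp
    | coe x => simp [h3]
  · rintro ⟨_, a, rfl⟩
    exact ⟨⟨dlHom F a, a, rfl⟩, Subtype.ext (dl_coe a y)⟩

/-- if `-1` is a square, an overgroup moving `∞` outside `{0, ∞}` is transitive or small -/
lemma Over.trans_or [Fintype F] (hX : Over X) (h2 : ringChar F ≠ 2)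
    (hV : ∀ b : F, tr b ∈ X → b = 0) {y : F} (hy : y ≠ 0)
    (hgy : ∃ g ∈ X, g (∞ : OnePoint F) = (y : OnePoint F)) :
    (∀ x : OnePoint F, ∃ g ∈ X, g ∞ = x) ∨
      Nat.card X = (Nat.card (torus F) + 2) * Nat.card (torus F) := by
  by_cases hex : ∃ z : F, z ≠ 0 ∧ ¬ IsSquare (z / y) ∧
      ∃ g ∈ X, g (∞ : OnePoint F) = (z : OnePoint F)
  · left
    obtain ⟨z, hz, hzy, hgz⟩ := hex
    intro x
    induction x using OnePoint.rec with
    | infty => exact ⟨1, one_mem _, rfl⟩
    | coe x =>
      by_cases hx : x = 0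
      · subst hx; exact hX.mem_orbit_zero
      by_cases hsq : IsSquare (x / y)
      · obtain ⟨s, hs⟩ := hsq
        have hs0 : s ≠ 0 := by
          rintro rfl
          rw [mul_zero] at hs
          exact div_ne_zero hx hy hs
        have h1 := hX.orbit_sq hgy hs0
        have h3 : s ^ 2 * y = x := by
          rw [pow_two, ← hs]; field_simp
        rwa [h3] at h1
      · obtain ⟨s, hs⟩ := isSquare_mul_of_not h2 hsq hzy
        have hs0 : s ≠ 0 := by
          rintro rfl
          rw [mul_zero] at hs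
          exact mul_ne_zero (div_ne_zero hx hy) (div_ne_zero hz hy) hs
        have h1 := hX.orbit_sq hgz (a := s * y / z) (div_ne_zero (mul_ne_zero hs0 hy) hz)
        have h3 : (s * y / z) ^ 2 * z = x := by
          have h4 : (s * y / z) ^ 2 * z = (s * s) * (y ^ 2 / z) := by field_simp
          rw [h4, ← hs]; field_simp
        rwa [h3] at h1
  · right
    push Not at hex
    rw [card_eq_orbit X ∞, hX.card_stab hV]
    congr 1
    have h1 : MulAction.orbit X (∞ : OnePoint F) =
        {∞, ((0 : F) : OnePoint F)} ∪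
          {x : OnePoint F | ∃ a : Fˣ, x = (((a : F) ^ 2 * y : F) : OnePoint F)} := by
      ext x
      constructor
      · rintro ⟨⟨g, hg⟩, hgx⟩
        have hgx' : g ∞ = x := hgx
        induction x using OnePoint.rec with
        | infty => left; simp
        | coe x =>
          by_cases hx : x = 0
          · left; subst hx; simp
          · right
            have h3 : IsSquare (x / y) := by
              by_contra hcon
              exact hex x hx hcon g hg hgx'
            obtain ⟨s, hs⟩ := h3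
            have hs0 : s ≠ 0 := by
              rintro rfl
              rw [mul_zero] at hs
              exact div_ne_zero hx hy hs
            refine ⟨Units.mk0 s hs0, ?_⟩
            rw [Units.val_mk0, pow_two, ← hs]
            congr 1
            field_simp
      · rintro (h | ⟨a, rfl⟩)
        · simp only [Set.mem_insert_iff, Set.mem_singleton_iff] at h
          rcases h with rfl | rfl
          · exact ⟨1, rfl⟩
          · exact ⟨⟨L2.ww, hX.ww⟩, ww_infty⟩
        · obtain ⟨g, hg, hgx⟩ := hX.orbit_sq hgy a.ne_zero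
          exact ⟨⟨g, hg⟩, hgx⟩
    rw [h1, Set.ncard_union_eq, ncard_sq_orbit hy, Set.ncard_pair, add_comm]
    · exact OnePoint.infty_ne_coe _
    · rw [Set.disjoint_left]
      rintro x hx ⟨a, ha⟩
      simp only [Set.mem_insert_iff, Set.mem_singleton_iff] at hx
      rcases hx with h | h
      · rw [h] at ha
        exact OnePoint.infty_ne_coe _ ha
      · rw [h] at ha
        have h3 := OnePoint.coe_injective ha
        exact mul_ne_zero (pow_ne_zero 2 a.ne_zero) hy h3.symm

/-- the small case forces `q = 3` or `q = 9` -/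
lemma Over.small [Fintype F] (hX : Over X) (h2 : ringChar F ≠ 2)
    (h : Nat.card X = (Nat.card (torus F) + 2) * Nat.card (torus F)) :
    Fintype.card F = 3 ∨ Fintype.card F = 9 := by
  have h1 := card_torus (F := F) h2
  have h3 : Nat.card X ∣ Nat.card (Lam F) := Subgroup.card_dvd_of_le hX.le
  rw [h, card_Lam] at h3
  have ht : 0 < Nat.card (torus F) := Nat.card_pos
  generalize Nat.card (torus F) = t at *
  rw [← h1] at h3 ⊢
  have h4 : (t + 2) ∣ (2 * t + 1 + 1) * (2 * t + 1) := by
    rw [← mul_assoc] at h3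
    exact Nat.dvd_of_mul_dvd_mul_right ht h3
  have h5 : (t + 2) ∣ 6 := by
    have h6 : (t + 2) ∣ (t + 2) * (4 * t) := dvd_mul_right _ _
    have h7 : (2 * t + 1 + 1) * (2 * t + 1) + 2 * (t + 2) = (t + 2) * (4 * t) + 6 := by ring
    have h8 : (t + 2) ∣ (t + 2) * (4 * t) + 6 := by
      rw [← h7]
      exact dvd_add h4 (dvd_mul_left _ _)
    exact (Nat.dvd_add_right h6).1 h8
  have h6 := Nat.le_of_dvd (by norm_num) h5
  have h7 : t ≤ 4 := by omega
  interval_cases t <;> omega

end Pool.Agent.Work.MP_bc729a_al.L2
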