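import Pool.Agent.Work.MP_bc729a_al.L2.Crit

/-! Unordered pairs of points. -/

open scoped Pointwise
open Equiv

namespace Pool.Agent.Work.MP_bc729a_al.L2

universe u v w

section

variable {Ω : Type v} [DecidableEq Ω]

lemma smul_pair (σ : Perm Ω) (g : Set.powersetCard Ω 2) :
    ((σ • g : Set.powersetCard Ω 2) : Finset Ω) = σ • (g : Finset Ω) := rfl

lemma smul_pair_mk (σ : Perm Ω) (x y : Ω) : σ • ({x, y} : Finset Ω) = {σ x, σ y} := by
  ext z
  simp [Finset.mem_smul_finset, eq_comm]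

/-- an involution fixes a pair -/
lemma exists_fixed_pair (σ : Perm Ω) (hσ : σ ^ 2 = 1) (hΩ : ∃ x y : Ω, x ≠ y) :
    ∃ g : Set.powersetCard Ω 2, σ • g = g := by
  by_cases h : ∃ x, σ x ≠ x
  · obtain ⟨x, hx⟩ := h
    refine ⟨⟨{x, σ x}, Finset.card_pair hx.symm⟩, ?_⟩
    apply Subtype.ext
    rw [smul_pair]
    change σ • ({x, σ x} : Finset Ω) = {x, σ x}
    rw [smul_pair_mk, Finset.pair_comm]
    congr 1
    have := congrArg (fun f : Perm Ω => f x) hσ
    simpa [pow_two] using this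
  · push Not at h
    obtain ⟨x, y, hxy⟩ := hΩ
    have h1 : σ = 1 := Equiv.ext h
    exact ⟨⟨{x, y}, Finset.card_pair hxy⟩, by rw [h1, one_smul]⟩

/-- a group transitive on pairs is transitive on points -/
lemma points_of_pairs [Fintype Ω] (h3 : 3 ≤ Fintype.card Ω) (T : Subgroup (Perm Ω))
    (f : Set.powersetCard Ω 2) (hT : ∀ g : Set.powersetCard Ω 2, ∃ τ ∈ T, τ • f = g)
    (x y : Ω) : ∃ τ ∈ T, τ x = y := by
  by_contra hcon
  push Not at hcon
  have hxy : x ≠ y := fun h => hcon 1 T.one_mem (by simpa using h)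
  have hT2 : ∀ g h : Set.powersetCard Ω 2, ∃ τ ∈ T, τ • g = h := by
    intro g h
    obtain ⟨a, ha, rfl⟩ := hT g
    obtain ⟨b, hb, rfl⟩ := hT h
    exact ⟨b * a⁻¹, T.mul_mem hb (T.inv_mem ha), by rw [mul_smul, inv_smul_smul]⟩
  obtain ⟨z, hz⟩ : ∃ z, z ∉ ({x, y} : Finset Ω) := by
    by_contra hc
    push Not at hc
    have h1 : Fintype.card Ω ≤ ({x, y} : Finset Ω).card := Finset.card_le_card fun w _ => hc w
    have h2 := Finset.card_le_two (a := x) (b := y)
    omega
  simp only [Finset.mem_insert, Finset.mem_singleton, not_or] at hz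
  by_cases hzO : ∃ τ ∈ T, τ x = z
  · obtain ⟨τ, hτ, h1⟩ := hT2 ⟨{x, z}, Finset.card_pair (Ne.symm hz.1)⟩
      ⟨{x, y}, Finset.card_pair hxy⟩
    have h2 : τ • ({x, z} : Finset Ω) = {x, y} := congrArg Subtype.val h1
    rw [smul_pair_mk] at h2
    have h3 : y ∈ ({τ x, τ z} : Finset Ω) := by rw [h2]; simp
    simp only [Finset.mem_insert, Finset.mem_singleton] at h3
    rcases h3 with h3 | h3
    · exact hcon τ hτ h3.symm
    · obtain ⟨ρ, hρ, h4⟩ := hzO
      exact hcon (τ * ρ) (T.mul_mem hτ hρ) (by rw [Perm.mul_apply, h4, h3])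
  · obtain ⟨τ, hτ, h1⟩ := hT2 ⟨{x, y}, Finset.card_pair hxy⟩
      ⟨{y, z}, Finset.card_pair (Ne.symm hz.2)⟩
    have h2 : τ • ({x, y} : Finset Ω) = {y, z} := congrArg Subtype.val h1
    rw [smul_pair_mk] at h2
    have h3 : τ x ∈ ({y, z} : Finset Ω) := by rw [← h2]; simp
    simp only [Finset.mem_insert, Finset.mem_singleton] at h3
    rcases h3 with h3 | h3
    · exact hcon τ hτ h3
    · exact hzO ⟨τ, hτ, h3⟩

lemma card_dvd_of_points [Fintype Ω] [Nonempty Ω] (T : Subgroup (Perm Ω))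
    (h : ∀ x y : Ω, ∃ τ ∈ T, τ x = y) : Fintype.card Ω ∣ Nat.card T := by
  have hT : MulAction.IsPretransitive T Ω := by
    constructor
    intro x y
    obtain ⟨τ, hτ, h1⟩ := h x y
    exact ⟨⟨τ, hτ⟩, h1⟩
  have h1 := MulAction.index_stabilizer_of_transitive T (Classical.arbitrary Ω)
  have h2 := Subgroup.index_dvd_card (MulAction.stabilizer T (Classical.arbitrary Ω))
  rw [h1, Nat.card_eq_fintype_card] at h2
  exact h2

variable {Q : Type u} [Group Q] [Finite Q] {A : Subgroup Q} {Λ : Subgroup (Perm Ω)} (e : A ≃* Λ)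

include e in
/-- the criterion for 2-homogeneous groups of degree `n`, `n` not `3` modulo `4` -/
theorem crit_pairs [Fintype Ω] (hQ : MaxCompl Q) (hA : ConjComm A) [IsSimpleGroup Λ]
    (hInd : AutInd Λ) (hC : TrivCent Λ) (h5 : 4 ≤ Fintype.card Ω) (h4 : Fintype.card Ω % 4 ≠ 3)
    (f : Set.powersetCard Ω 2) (htr : ∀ g : Set.powersetCard Ω 2, ∃ x ∈ Λ, x • f = g)
    (hco : IsCoatom (stab Λ f)) (hne : stab Λ f ≠ ⊥) : False := by
  haveI : Fact (Nat.Prime 2) := ⟨Nat.prime_two⟩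
  have hex : ∃ x y : Ω, x ≠ y := by
    have : 1 < Fintype.card Ω := by omega
    exact Fintype.exists_pair_of_one_lt_card this
  haveI : Nonempty Ω := ⟨hex.choose⟩
  have hcard : Nat.card (Set.powersetCard Ω 2) = (Fintype.card Ω).choose 2 := by
    have := Set.powersetCard.card (α := Ω) (n := 2)
    rwa [Nat.card_eq_fintype_card (α := Ω)] at this
  by_cases h2 : 2 ∣ Nat.card (Set.powersetCard Ω 2)
  · exact crit_prime e hQ hA hInd hC f htr hco hne 2
      (fun σ hσ => exists_fixed_pair σ hσ hex) h2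
  · refine crit_trans e hQ hA hInd hC f htr hco hne 2 ?_ h2
    intro T hT
    have h6 := card_dvd_of_points T (points_of_pairs (by omega) T f hT)
    refine dvd_trans ?_ h6
    rw [hcard] at h2
    rw [Nat.choose_two_right] at h2
    -- n (n-1) / 2 odd, n mod 4 ≠ 3
    generalize Fintype.card Ω = n at *
    have h7 : n % 4 = 0 ∨ n % 4 = 1 ∨ n % 4 = 2 := by omega
    rcases h7 with h7 | h7 | h7
    · omega
    · exfalso
      apply h2
      obtain ⟨k, hk⟩ : ∃ k, n = 4 * k + 1 := ⟨n / 4, by omega⟩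
      subst hk
      have : (4 * k + 1) * (4 * k + 1 - 1) = 2 * (2 * (k * (4 * k + 1))) := by
        rw [Nat.add_sub_cancel]; ring
      rw [this, Nat.mul_div_cancel_left _ (by norm_num)]
      exact dvd_mul_right _ _
    · omega

end

end Pool.Agent.Work.MP_bc729a_al.L2
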