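import Pool.Agent.Work.MP_bc729a_al.L2.Gen

/-! Automorphisms of a permutation group whose elements of order `p` have exactly one fixed point. -/

open scoped Pointwise
open Equiv

namespace Pool.Agent.Work.MP_bc729a_al.L2

universe u v w

/-- `Λ` is a group in which the elements `u ≠ 1` with `u ^ p = 1` have exactly one fixed point and two
of them with the same fixed point commute -/
structure UnipData {Ω : Type v} (Λ : Subgroup (Perm Ω)) (p : ℕ) : Prop where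
  ex : ∀ u ∈ Λ, u ^ p = 1 → ∃ x, u x = x
  uniq : ∀ u ∈ Λ, u ^ p = 1 → u ≠ 1 → ∀ x y, u x = x → u y = y → x = y
  pt : ∀ x, ∃ u ∈ Λ, u ^ p = 1 ∧ u ≠ 1 ∧ u x = x
  comm : ∀ u ∈ Λ, ∀ v ∈ Λ, u ^ p = 1 → v ^ p = 1 → ∀ x, u x = x → v x = x → u * v = v * u

variable {Ω : Type v} {Λ : Subgroup (Perm Ω)} {p : ℕ}

theorem UnipData.trivCent (h : UnipData Λ p) : TrivCent Λ := by
  intro σ hσ
  ext x
  obtain ⟨u, hu, hup, hu1, hux⟩ := h.pt x
  have h1 := hσ ⟨u, hu⟩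
  have h2 : σ * u = u * σ := by
    have := congrArg (· * σ) h1
    simpa [mul_assoc] using this
  refine h.uniq u hu hup hu1 _ _ ?_ hux
  have h3 := congrArg (fun f : Perm Ω => f x) h2
  simp only [Perm.mul_apply, hux] at h3
  exact h3.symm

theorem UnipData.autInd (h : UnipData Λ p) : AutInd Λ := by
  classical
  intro α
  -- the unipotent attached to a point
  choose u hu hup hu1 hux using h.pt
  have hpow : ∀ (β : Λ ≃* Λ) (g : Λ), (g : Perm Ω) ^ p = 1 → ((β g : Λ) : Perm Ω) ^ p = 1 := by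
    intro β g hg
    have h1 : g ^ p = 1 := Subtype.ext (by simpa using hg)
    have h2 : (β g) ^ p = 1 := by rw [← map_pow, h1, map_one]
    simpa using congrArg Subtype.val h2
  have hne : ∀ (β : Λ ≃* Λ) (g : Λ), (g : Perm Ω) ≠ 1 → ((β g : Λ) : Perm Ω) ≠ 1 := by
    intro β g hg hcon
    apply hg
    have h1 : β g = 1 := Subtype.ext hcon
    have h2 : g = 1 := by simpa using h1
    rw [h2]; rfl
  -- fixed point map of an automorphism
  have key : ∀ β : Λ ≃* Λ, ∃ s : Ω → Ω, ∀ (g : Λ) (x : Ω), (g : Perm Ω) ^ p = 1 →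
      (g : Perm Ω) ≠ 1 → (g : Perm Ω) x = x → ((β g : Λ) : Perm Ω) (s x) = s x := by
    intro β
    choose s hs using fun x => h.ex _ (β ⟨u x, hu x⟩).2 (hpow β _ (hup x))
    refine ⟨s, fun g x hg hg1 hgx => ?_⟩
    have hc : (g : Perm Ω) * u x = u x * g := h.comm _ g.2 _ (hu x) hg (hup x) x hgx (hux x)
    have hc' : g * ⟨u x, hu x⟩ = ⟨u x, hu x⟩ * g := Subtype.ext hc
    have hc2 : ((β g : Λ) : Perm Ω) * (β ⟨u x, hu x⟩ : Λ) = (β ⟨u x, hu x⟩ : Λ) * (β g : Λ) := by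
      have := congrArg β hc'
      rw [map_mul, map_mul] at this
      exact congrArg Subtype.val this
    refine h.uniq _ (β ⟨u x, hu x⟩).2 (hpow β _ (hup x)) (hne β _ (hu1 x)) _ _ ?_ (hs x)
    have h3 := congrArg (fun f : Perm Ω => f (s x)) hc2
    simp only [Perm.mul_apply, hs x] at h3
    exact h3.symm
  obtain ⟨s, hs⟩ := key α
  obtain ⟨t, ht⟩ := key α.symm
  have hst : ∀ x, t (s x) = x := by
    intro x
    have h1 := hs ⟨u x, hu x⟩ x (hup x) (hu1 x) (hux x)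
    have h2 := ht (α ⟨u x, hu x⟩) (s x) (hpow α _ (hup x)) (hne α _ (hu1 x)) h1
    rw [MulEquiv.symm_apply_apply] at h2
    exact h.uniq _ (hu x) (hup x) (hu1 x) _ _ h2 (hux x)
  have hts : ∀ x, s (t x) = x := by
    intro x
    have h1 := ht ⟨u x, hu x⟩ x (hup x) (hu1 x) (hux x)
    have h2 := hs (α.symm ⟨u x, hu x⟩) (t x) (hpow α.symm _ (hup x)) (hne α.symm _ (hu1 x)) h1
    rw [MulEquiv.apply_symm_apply] at h2
    exact h.uniq _ (hu x) (hup x) (hu1 x) _ _ h2 (hux x)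
  let σ : Perm Ω := ⟨s, t, hst, hts⟩
  refine ⟨σ, fun g => ?_⟩
  -- `α g (s y) = s (g y)`
  have hg : ∀ y, ((α g : Λ) : Perm Ω) (s y) = s ((g : Perm Ω) y) := by
    intro y
    -- `g u_y g⁻¹` fixes `g y`
    have e1 : ((g * ⟨u y, hu y⟩ * g⁻¹ : Λ) : Perm Ω) = g * u y * (g : Perm Ω)⁻¹ := rfl
    have e2 : ((g * ⟨u y, hu y⟩ * g⁻¹ : Λ) : Perm Ω) ^ p = 1 := by
      rw [e1, conj_pow, hup y]; simp
    have e3 : ((g * ⟨u y, hu y⟩ * g⁻¹ : Λ) : Perm Ω) ≠ 1 := by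
      rw [e1]
      intro hcon
      apply hu1 y
      rw [mul_inv_eq_one, mul_eq_left] at hcon
      exact hcon
    have e4 : ((g * ⟨u y, hu y⟩ * g⁻¹ : Λ) : Perm Ω) ((g : Perm Ω) y) = (g : Perm Ω) y := by
      rw [e1]
      simp [hux y]
    have h1 := hs _ _ e2 e3 e4
    refine h.uniq _ (α (g * ⟨u y, hu y⟩ * g⁻¹)).2 (hpow α _ e2) (hne α _ e3) _ _ ?_ h1
    rw [map_mul, map_mul, map_inv]
    have h2 := hs ⟨u y, hu y⟩ y (hup y) (hu1 y) (hux y)
    simp [h2]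
  ext x
  have h1 := hg (t x)
  rw [hts] at h1
  simp only [Perm.mul_apply]
  exact h1

end Pool.Agent.Work.MP_bc729a_al.L2
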