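import Pool.Agent.Work.MP_bc729a_al.L2.Moeb
import Pool.Agent.Work.MP_bc729a_al.L2.Unip

/-! The unipotent elements of `PSL(2, F)`. -/

open Equiv OnePoint
open scoped MatrixGroups

namespace Pool.Agent.Work.MP_bc729a_al.L2

universe v

variable {F : Type v} [Field F] [DecidableEq F]

lemma dl_eq_one_of_sq {a : Fˣ} (h : (a : F) ^ 2 = 1) : dl a = 1 := by
  ext x
  induction x using OnePoint.rec with
  | infty => simp
  | coe x => simp [h]

lemma aff_pow (a : Fˣ) (b : F) (n : ℕ) :
    ∃ c : F, ∀ x : F, ((tr b * dl a) ^ n) (x : OnePoint F) =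
      ((((a : F) ^ 2) ^ n * x + c : F) : OnePoint F) := by
  induction n with
  | zero => exact ⟨0, fun x => by simp⟩
  | succ n ih =>
    obtain ⟨c, hc⟩ := ih
    refine ⟨(a : F) ^ 2 * c + b, fun x => ?_⟩
    rw [pow_succ', Perm.mul_apply, hc]
    simp only [Perm.coe_mul, Function.comp_apply, dl_coe, tr_coe]
    congr 1
    ring

lemma eq_tr_of_pow (p : ℕ) [Fact p.Prime] [CharP F p] {u : Perm (OnePoint F)} (hu : u ∈ Lam F)
    (hup : u ^ p = 1) (h : u ∞ = ∞) : ∃ b, u = tr b := by
  obtain ⟨a, b, rfl⟩ := fix_infty hu h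
  obtain ⟨c, hc⟩ := aff_pow a b p
  rw [hup] at hc
  have h0 := hc 0
  have h1 := hc 1
  simp only [Perm.coe_one, id_eq, mul_zero, zero_add, mul_one] at h0 h1
  have e0 : (0 : F) = c := OnePoint.coe_injective h0
  have e1 : (1 : F) = ((a : F) ^ 2) ^ p + c := OnePoint.coe_injective h1
  rw [← e0, add_zero] at e1
  have e2 : ((a : F) ^ 2 - 1) ^ p = 0 := by
    rw [sub_pow_char, one_pow, ← e1, sub_self]
  have e3 : (a : F) ^ 2 = 1 := sub_eq_zero.1 (eq_zero_of_pow_eq_zero e2)
  exact ⟨b, by rw [dl_eq_one_of_sq e3, mul_one]⟩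

lemma tr_pow_char (p : ℕ) [CharP F p] (b : F) : (tr b) ^ p = 1 := by
  have : ∀ n : ℕ, (tr b) ^ n = tr ((n : F) * b) := by
    intro n
    induction n with
    | zero => simp [tr_zero]
    | succ n ih => rw [pow_succ, ih, ← tr_add]; congr 1; push_cast; ring
  rw [this, CharP.cast_eq_zero, zero_mul, tr_zero]

lemma tr_fix {b : F} (hb : b ≠ 0) {x : OnePoint F} (h : tr b x = x) : x = ∞ := by
  induction x using OnePoint.rec with
  | infty => rfl
  | coe x =>
    rw [tr_coe] at h
    have := OnePoint.coe_injective h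
    exact absurd (by simpa using this) hb

lemma tr_ne_one {b : F} (hb : b ≠ 0) : tr b ≠ 1 := by
  intro h
  have := tr_fix hb (x := ((0 : F) : OnePoint F)) (by rw [h]; rfl)
  exact OnePoint.coe_ne_infty _ this

theorem unipData [Fintype F] (p : ℕ) [Fact p.Prime] [CharP F p] : UnipData (Lam F) p := by
  have hconj : ∀ u ∈ Lam F, u ^ p = 1 → ∀ x, u x = x → ∃ g ∈ Lam F, g ∞ = x ∧
      ∃ b, u = g * tr b * g⁻¹ := by
    intro u hu hup x hx
    obtain ⟨g, hg, hgx⟩ := transLam (∞ : OnePoint F) x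
    obtain ⟨b, hb⟩ := eq_tr_of_pow p (u := g⁻¹ * u * g)
      (mul_mem (mul_mem (inv_mem hg) hu) hg)
      (by
        have := conj_pow (a := g⁻¹) (b := u) (i := p)
        rw [inv_inv] at this
        rw [this, hup]; simp)
      (by rw [Perm.mul_apply, Perm.mul_apply, hgx, hx, ← hgx]; simp)
    refine ⟨g, hg, hgx, b, ?_⟩
    rw [← hb]
    group
  refine ⟨?_, ?_, ?_, ?_⟩
  · intro u hu hup
    apply Equiv.Perm.exists_fixed_point_of_prime (p := p) (n := 1)
    · have h1 : Fintype.card (OnePoint F) = Fintype.card F + 1 := by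
        exact Fintype.card_option
      rw [h1]
      have h2 : p ∣ Fintype.card F := by
        rw [← CharP.cast_eq_zero_iff F p]
        exact FiniteField.cast_card_eq_zero F
      intro h3
      have h4 : p ∣ 1 := (Nat.dvd_add_right h2).1 h3
      exact (Fact.out : p.Prime).one_lt.ne' (Nat.dvd_one.1 h4)
    · rw [pow_one]; exact hup
  · intro u hu hup hu1 x y hx hy
    obtain ⟨g, hg, rfl, b, rfl⟩ := hconj u hu hup x hx
    have hb : b ≠ 0 := by
      rintro rfl
      apply hu1
      rw [tr_zero]; simp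
    have h1 : tr b (g⁻¹ y) = g⁻¹ y := by
      rw [Perm.mul_apply, Perm.mul_apply] at hy
      rw [Perm.eq_inv_iff_eq]
      exact hy
    have h2 := tr_fix hb h1
    rw [← h2]; simp
  · intro x
    obtain ⟨g, hg, rfl⟩ := transLam (∞ : OnePoint F) x
    refine ⟨g * tr 1 * g⁻¹, mul_mem (mul_mem hg (tr_mem _)) (inv_mem hg), ?_, ?_, ?_⟩
    · rw [conj_pow, tr_pow_char]; simp
    · intro h
      rw [mul_inv_eq_one, mul_eq_left] at h
      exact tr_ne_one one_ne_zero h
    · simp
  · intro u hu v hv hup hvp x hx hy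
    obtain ⟨g, hg, rfl, b, rfl⟩ := hconj u hu hup x hx
    obtain ⟨c, hc⟩ := eq_tr_of_pow p (u := g⁻¹ * v * g)
      (mul_mem (mul_mem (inv_mem hg) hv) hg)
      (by
        have := conj_pow (a := g⁻¹) (b := v) (i := p)
        rw [inv_inv] at this
        rw [this, hvp]; simp)
      (by simp [Perm.mul_apply, hy])
    have hv' : v = g * tr c * g⁻¹ := by rw [← hc]; group
    rw [hv']
    have : tr b * tr c = tr c * tr b := by rw [← tr_add, ← tr_add, add_comm]
    calc g * tr b * g⁻¹ * (g * tr c * g⁻¹) = g * (tr b * tr c) * g⁻¹ := by group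
      _ = g * (tr c * tr b) * g⁻¹ := by rw [this]
      _ = _ := by group

end Pool.Agent.Work.MP_bc729a_al.L2
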