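import Pool.Agent.Work.MP_bc729a_al.L2.MaxD
import Pool.Agent.Work.MP_bc729a_al.L2.UnipF
import Pool.Agent.Work.MP_bc729a_al.L2.Pairs

/-! The pair stabiliser in `PSL(2, F)` is maximal for `q` even, `q ≥ 4`, and for `q ≥ 13`; the main
case of the theorem. -/

open Equiv OnePoint
open scoped MatrixGroups Pointwise

namespace Pool.Agent.Work.MP_bc729a_al.L2

universe u v

variable {F : Type v} [Field F] [DecidableEq F]

lemma Over.transitive_or [Fintype F] {X : Subgroup (Perm (OnePoint F))} (hX : Over X)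
    (hV : ∀ b : F, tr b ∈ X → b = 0) {y : F} (hy : y ≠ 0)
    (hgy : ∃ g ∈ X, g (∞ : OnePoint F) = (y : OnePoint F)) :
    (∀ x : OnePoint F, ∃ g ∈ X, g ∞ = x) ∨
      (Nat.card X = (Nat.card (torus F) + 2) * Nat.card (torus F) ∧ ringChar F ≠ 2) := by
  by_cases h2 : ringChar F = 2
  · exact Or.inl (hX.trans_two h2 hy hgy)
  · rcases hX.trans_or h2 hV hy hgy with h | h
    · exact Or.inl h
    · exact Or.inr ⟨h, h2⟩

/-- overgroups of the pair stabiliser -/
lemma Over.eq_Lam [Fintype F] {X : Subgroup (Perm (OnePoint F))} (hX : Over X)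
    (hq : ringChar F = 2 ∨ 13 ≤ Fintype.card F) {y : F} (hy : y ≠ 0)
    (hgy : ∃ g ∈ X, g (∞ : OnePoint F) = (y : OnePoint F)) : X = Lam F := by
  by_contra hne
  have hV : ∀ b : F, tr b ∈ X → b = 0 := by
    intro b hb
    by_contra hb0
    exact hne (hX.eq_top_of_tr ⟨b, hb0, hb⟩)
  rcases hX.transitive_or hV hy hgy with htr | ⟨h, h2⟩
  · obtain ⟨π, h1, h3, h4, h5, h6⟩ := hX.pairing hV htr
    have hπ : IsPairing X π := ⟨h1, h3, h4, h5, h6⟩
    by_cases h2 : ringChar F = 2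
    · exact hπ.false_of_two hX h2
    · have := hπ.card_le hX htr h2
      rcases hq with h | h
      · exact h2 h
      · omega
  · rcases hq with h' | h'
    · exact h2 h'
    · have := hX.small h2 h
      omega

variable (F) in
/-- the pair `{0, ∞}` -/
noncomputable def f0 : Set.powersetCard (OnePoint F) 2 :=
  ⟨{∞, ((0 : F) : OnePoint F)}, Finset.card_pair (OnePoint.infty_ne_coe _)⟩

lemma trans_pairs (g : Set.powersetCard (OnePoint F) 2) : ∃ x ∈ Lam F, x • f0 F = g := by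
  obtain ⟨s, hs⟩ := g
  have hs' : s.card = 2 := hs
  obtain ⟨x, y, hxy, rfl⟩ := Finset.card_eq_two.1 hs'
  obtain ⟨g, hg, h1, h2⟩ := two_trans hxy
  refine ⟨g, hg, ?_⟩
  apply Subtype.ext
  rw [smul_pair]
  change g • ({∞, ((0 : F) : OnePoint F)} : Finset (OnePoint F)) = {x, y}
  rw [smul_pair_mk, h1, h2]

lemma smul_f0_iff {g : Perm (OnePoint F)} : g • f0 F = f0 F ↔
    ({g ∞, g ((0 : F) : OnePoint F)} : Finset (OnePoint F)) = {∞, ((0 : F) : OnePoint F)} := by
  rw [Subtype.ext_iff, smul_pair]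
  change g • ({∞, ((0 : F) : OnePoint F)} : Finset (OnePoint F)) = {∞, ((0 : F) : OnePoint F)} ↔ _
  rw [smul_pair_mk]

lemma dl_f0 (a : Fˣ) : dl a • f0 F = f0 F := by
  rw [smul_f0_iff]; simp

lemma ww_f0 : (ww : Perm (OnePoint F)) • f0 F = f0 F := by
  rw [smul_f0_iff, ww_infty, ww_zero, Finset.pair_comm]

/-- the overgroup of `Perm` given by a subgroup above the pair stabiliser -/
lemma over_map {B : Subgroup (Lam F)} (hB : stab (Lam F) (f0 F) ≤ B) :
    Over (B.map (Lam F).subtype) := by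
  refine ⟨?_, ?_, ?_⟩
  · exact Subgroup.map_subtype_le B
  · intro a
    exact ⟨⟨dl a, dl_mem a⟩, hB (mem_stab.2 (dl_f0 a)), rfl⟩
  · exact ⟨⟨ww, ww_mem⟩, hB (mem_stab.2 ww_f0), rfl⟩

lemma exists_move {X : Subgroup (Perm (OnePoint F))} (hX : Over X) {g : Perm (OnePoint F)}
    (hg : g ∈ X) (hgf : g • f0 F ≠ f0 F) :
    ∃ y : F, y ≠ 0 ∧ ∃ g ∈ X, g (∞ : OnePoint F) = (y : OnePoint F) := by
  by_contra hcon
  push Not at hcon
  have h1 : ∀ k ∈ X, k (∞ : OnePoint F) = ∞ ∨ k (∞ : OnePoint F) = ((0 : F) : OnePoint F) := by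
    intro k hk
    induction h : k (∞ : OnePoint F) using OnePoint.rec with
    | infty => left; rfl
    | coe y =>
      right
      by_cases hy : y = 0
      · rw [hy]
      · exact absurd h (hcon y hy k hk)
  apply hgf
  rw [smul_f0_iff]
  have h2 := h1 g hg
  have h3 := h1 (g * ww) (mul_mem hg hX.ww)
  rw [Perm.mul_apply, ww_infty] at h3
  have h4 : g ∞ ≠ g ((0 : F) : OnePoint F) := fun h =>
    OnePoint.infty_ne_coe _ (g.injective h)
  rcases h2 with h2 | h2 <;> rcases h3 with h3 | h3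
  · exact absurd (h2.trans h3.symm) h4
  · rw [h2, h3]
  · rw [h2, h3, Finset.pair_comm]
  · exact absurd (h2.trans h3.symm) h4

lemma stab_ne_top : stab (Lam F) (f0 F) ≠ ⊤ := by
  intro h
  have h1 : (⟨tr 1, tr_mem 1⟩ : Lam F) ∈ stab (Lam F) (f0 F) := by rw [h]; trivial
  have h2 : (tr 1 : Perm (OnePoint F)) • f0 F = f0 F := mem_stab.1 h1
  rw [smul_f0_iff, tr_infty, tr_coe, zero_add] at h2
  have h3 : ((1 : F) : OnePoint F) ∈ ({∞, ((0 : F) : OnePoint F)} : Finset (OnePoint F)) := by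
    rw [← h2]; simp
  simp only [Finset.mem_insert, Finset.mem_singleton] at h3
  rcases h3 with h3 | h3
  · exact OnePoint.coe_ne_infty _ h3
  · exact one_ne_zero (OnePoint.coe_injective h3)

lemma stab_ne_bot : stab (Lam F) (f0 F) ≠ ⊥ := by
  intro h
  have h1 : (⟨ww, ww_mem⟩ : Lam F) ∈ stab (Lam F) (f0 F) := mem_stab.2 ww_f0
  rw [h, Subgroup.mem_bot] at h1
  have h2 : (ww : Perm (OnePoint F)) = 1 := congrArg Subtype.val h1
  have h3 := ww_infty (F := F)
  rw [h2] at h3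
  exact OnePoint.infty_ne_coe _ h3

/-- the pair stabiliser is maximal -/
theorem coatom [Fintype F] (hq : ringChar F = 2 ∨ 13 ≤ Fintype.card F) :
    IsCoatom (stab (Lam F) (f0 F)) := by
  refine ⟨stab_ne_top, fun B hB => ?_⟩
  have hX := over_map hB.le
  obtain ⟨g, hgB, hg⟩ := Set.exists_of_ssubset hB
  have hgf : ((g : Lam F) : Perm (OnePoint F)) • f0 F ≠ f0 F := fun h => hg (mem_stab.2 h)
  obtain ⟨y, hy, hgy⟩ := exists_move hX (g := (g : Perm (OnePoint F))) ⟨g, hgB, rfl⟩ hgf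
  have h1 := hX.eq_Lam hq hy hgy
  rw [eq_top_iff]
  intro x _
  have h2 : (x : Perm (OnePoint F)) ∈ B.map (Lam F).subtype := by rw [h1]; exact x.2
  obtain ⟨z, hz, hzx⟩ := h2
  have : z = x := Subtype.ext hzx
  rwa [← this]

theorem lam_unip [Fintype F] : AutInd (Lam F) ∧ TrivCent (Lam F) := by
  have : Fact (ringChar F).Prime := ⟨CharP.char_is_prime F (ringChar F)⟩
  have h := unipData (F := F) (ringChar F)
  exact ⟨h.autInd, h.trivCent⟩

theorem lam_simple [Finite F] (h4 : 4 ≤ Nat.card F) : IsSimpleGroup (Lam F) := by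
  have := Matrix.ProjectiveSpecialLinearGroup.rank_two_simple (F := F) h4
  obtain ⟨e⟩ := psl_equiv (F := F)
  exact e.symm.isSimpleGroup

/-- the main case -/
theorem main_case [Fintype F] (hq : ringChar F = 2 ∨ 13 ≤ Fintype.card F)
    (h4 : 4 ≤ Fintype.card F) {Q : Type u} [Group Q] [Finite Q] {A : Subgroup Q}
    (e : A ≃* Lam F) (hQ : MaxCompl Q) (hA : ConjComm A) : False := by
  have hs : IsSimpleGroup (Lam F) := lam_simple (by rwa [Nat.card_eq_fintype_card])
  have hn : Fintype.card (OnePoint F) = Fintype.card F + 1 := Fintype.card_option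
  refine crit_pairs e hQ hA lam_unip.1 lam_unip.2 (by omega) ?_ (f0 F) trans_pairs (coatom hq)
    stab_ne_bot
  rw [hn]
  obtain ⟨n, hp, hc⟩ := FiniteField.card F (ringChar F)
  by_cases h2 : ringChar F = 2
  · rw [h2] at hc
    have h5 : 2 ≤ (n : ℕ) := by
      by_contra hcon
      have h6 : (n : ℕ) = 1 := by have := n.pos; omega
      rw [hc, h6] at h4
      omega
    have h6 : 4 ∣ Fintype.card F := by
      rw [hc, show (4 : ℕ) = 2 ^ 2 by norm_num]
      exact pow_dvd_pow 2 h5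
    omega
  · have h5 : Fintype.card F % 2 = 1 := FiniteField.odd_card_of_char_ne_two h2
    omega

end Pool.Agent.Work.MP_bc729a_al.L2
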