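import Mathlib

/-! `PSL(2, F)` as a group of permutations of the projective line `OnePoint F`. -/

open Equiv OnePoint
open scoped MatrixGroups

namespace Pool.Agent.Work.MP_bc729a_al.L2

universe v

variable {F : Type v} [Field F] [DecidableEq F]

instance decEqOnePoint : DecidableEq (OnePoint F) := inferInstanceAs (DecidableEq (Option F))

/-- the action of `SL(2, F)` on the projective line -/
noncomputable def phi : SL(2, F) →* Perm (OnePoint F) :=
  (MulAction.toPermHom (GL (Fin 2) F) (OnePoint F)).comp Matrix.SpecialLinearGroup.toGL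

variable (F) in
/-- the image of `SL(2, F)` in the symmetric group of the projective line -/
noncomputable def Lam : Subgroup (Perm (OnePoint F)) := (phi (F := F)).range

lemma phi_infty (g : SL(2, F)) :
    phi g ∞ = if g 1 0 = 0 then (∞ : OnePoint F) else ((g 0 0 / g 1 0 : F) : OnePoint F) := by
  change (Matrix.SpecialLinearGroup.toGL g) • (∞ : OnePoint F) = _
  rw [smul_infty_eq_ite]
  rfl

lemma phi_coe (g : SL(2, F)) (k : F) :
    phi g (k : OnePoint F) = if g 1 0 * k + g 1 1 = 0 then (∞ : OnePoint F) else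
      (((g 0 0 * k + g 0 1) / (g 1 0 * k + g 1 1) : F) : OnePoint F) := by
  change (Matrix.SpecialLinearGroup.toGL g) • (k : OnePoint F) = _
  rw [smul_some_eq_ite]
  rfl

lemma phi_ker : (phi (F := F)).ker = Subgroup.center SL(2, F) := by
  rw [← Projectivization.SL_mulAction_ker]
  ext g
  rw [MonoidHom.mem_ker, MonoidHom.mem_ker]
  constructor
  · intro h
    ext x
    obtain ⟨y, rfl⟩ := (equivProjectivization F).surjective x
    have h1 : (Matrix.SpecialLinearGroup.toGL g) • y = y := congrArg (fun f : Perm _ => f y) h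
    have h2 := equivProjectivization_smul (g := Matrix.SpecialLinearGroup.toGL g) y
    rw [h1] at h2
    exact h2.symm
  · intro h
    ext y
    have h1 : g • (equivProjectivization F y) = equivProjectivization F y :=
      congrArg (fun f : Perm _ => f (equivProjectivization F y)) h
    have h2 := equivProjectivization_smul (g := Matrix.SpecialLinearGroup.toGL g) y
    apply (equivProjectivization F).injective
    exact h2.trans h1

/-- `PSL(2, F)` is `Lam F` -/
theorem psl_equiv : Nonempty (PSL(2, F) ≃* Lam F) :=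
  ⟨(QuotientGroup.quotientMulEquivOfEq phi_ker.symm).trans
    (QuotientGroup.quotientKerEquivRange phi)⟩

/-- the matrix with entries `a b c d` -/
def mk2 (a b c d : F) (h : a * d - b * c = 1) : SL(2, F) :=
  ⟨!![a, b; c, d], by rw [Matrix.det_fin_two_of]; exact h⟩

/-- translation -/
noncomputable def tr (b : F) : Perm (OnePoint F) := phi (mk2 1 b 0 1 (by ring))

/-- dilation by a square -/
noncomputable def dl (a : Fˣ) : Perm (OnePoint F) :=
  phi (mk2 (a : F) 0 0 ((a⁻¹ : Fˣ) : F) (by simp))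

/-- the involution `x ↦ -1/x` -/
noncomputable def ww : Perm (OnePoint F) := phi (mk2 0 (-1) 1 0 (by ring))

lemma tr_mem (b : F) : tr b ∈ Lam F := ⟨_, rfl⟩
lemma dl_mem (a : Fˣ) : dl a ∈ Lam F := ⟨_, rfl⟩
lemma ww_mem : (ww : Perm (OnePoint F)) ∈ Lam F := ⟨_, rfl⟩

@[simp] lemma tr_infty (b : F) : tr b (∞ : OnePoint F) = ∞ := by
  rw [tr, phi_infty]; simp [mk2]

@[simp] lemma tr_coe (b x : F) : tr b (x : OnePoint F) = ((x + b : F) : OnePoint F) := by
  rw [tr, phi_coe]; simp [mk2]

@[simp] lemma dl_infty (a : Fˣ) : dl a (∞ : OnePoint F) = ∞ := by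
  rw [dl, phi_infty]; simp [mk2]

@[simp] lemma dl_coe (a : Fˣ) (x : F) :
    dl a (x : OnePoint F) = (((a : F) ^ 2 * x : F) : OnePoint F) := by
  rw [dl, phi_coe]
  simp only [mk2, Matrix.SpecialLinearGroup.coe_mk, Matrix.of_apply, Matrix.cons_val_one,
    Matrix.cons_val_zero]
  have : (((a⁻¹ : Fˣ) : F)) ≠ 0 := Units.ne_zero _
  simp
  field_simp

@[simp] lemma ww_infty : ww (∞ : OnePoint F) = ((0 : F) : OnePoint F) := by
  rw [ww, phi_infty]; simp [mk2]

@[simp] lemma ww_zero : ww ((0 : F) : OnePoint F) = ∞ := by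
  rw [ww, phi_coe]; simp [mk2]

lemma ww_coe {x : F} (hx : x ≠ 0) : ww (x : OnePoint F) = ((-x⁻¹ : F) : OnePoint F) := by
  rw [ww, phi_coe]
  simp [mk2, hx]
  ring

lemma tr_add (b c : F) : tr (b + c) = tr b * tr c := by
  ext x
  induction x using OnePoint.rec with
  | infty => simp
  | coe x => simp [add_comm, add_left_comm]

lemma tr_zero : tr (0 : F) = 1 := by
  ext x
  induction x using OnePoint.rec with
  | infty => simp
  | coe x => simp

lemma tr_neg (b : F) : tr (-b) = (tr b)⁻¹ := by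
  rw [eq_inv_iff_mul_eq_one, ← tr_add, neg_add_cancel, tr_zero]

lemma dl_mul (a b : Fˣ) : dl (a * b) = dl a * dl b := by
  ext x
  induction x using OnePoint.rec with
  | infty => simp
  | coe x => simp [mul_pow, mul_assoc]

lemma dl_one : dl (1 : Fˣ) = 1 := by
  ext x
  induction x using OnePoint.rec with
  | infty => simp
  | coe x => simp

lemma dl_inv (a : Fˣ) : dl a⁻¹ = (dl a)⁻¹ := by
  rw [eq_inv_iff_mul_eq_one, ← dl_mul, inv_mul_cancel, dl_one]

lemma dl_tr (a : Fˣ) (b : F) : dl a * tr b * (dl a)⁻¹ = tr ((a : F) ^ 2 * b) := by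
  rw [mul_inv_eq_iff_eq_mul]
  ext x
  induction x using OnePoint.rec with
  | infty => simp
  | coe x => simp [mul_add]

lemma ww_sq : (ww : Perm (OnePoint F)) * ww = 1 := by
  ext x
  induction x using OnePoint.rec with
  | infty => simp
  | coe x =>
    by_cases hx : x = 0
    · subst hx; simp
    · have : -x⁻¹ ≠ 0 := by simpa using hx
      simp [ww_coe hx, ww_coe this]

lemma ww_inv : (ww : Perm (OnePoint F))⁻¹ = ww := by
  rw [inv_eq_iff_mul_eq_one, ww_sq]

/-- elements fixing `∞` are affine -/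
lemma fix_infty {g : Perm (OnePoint F)} (hg : g ∈ Lam F) (h : g ∞ = ∞) :
    ∃ (a : Fˣ) (b : F), g = tr b * dl a := by
  obtain ⟨m, rfl⟩ := hg
  rw [phi_infty] at h
  have hc : m 1 0 = 0 := by
    by_contra hcon
    rw [if_neg hcon] at h
    exact OnePoint.coe_ne_infty _ h
  have hdet : m 0 0 * m 1 1 - m 0 1 * m 1 0 = 1 := by
    have := m.2
    rwa [Matrix.det_fin_two] at this
  rw [hc, mul_zero, sub_zero] at hdet
  have ha : m 0 0 ≠ 0 := left_ne_zero_of_mul_eq_one hdet
  refine ⟨Units.mk0 (m 0 0) ha, m 0 1 * m 0 0, ?_⟩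
  have hd : m 1 1 = (m 0 0)⁻¹ := (inv_eq_of_mul_eq_one_right hdet).symm
  ext x
  induction x using OnePoint.rec with
  | infty => rw [phi_infty, hc]; simp
  | coe x =>
    rw [phi_coe, hc, hd, zero_mul, zero_add, if_neg (inv_ne_zero ha)]
    simp only [Perm.coe_mul, Function.comp_apply, dl_coe, tr_coe, Units.val_mk0]
    congr 1
    field_simp

/-- elements fixing `0` and `∞` -/
lemma fix_two {g : Perm (OnePoint F)} (hg : g ∈ Lam F) (h : g ∞ = ∞)
    (h0 : g ((0 : F) : OnePoint F) = ((0 : F) : OnePoint F)) : ∃ a : Fˣ, g = dl a := by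
  obtain ⟨a, b, rfl⟩ := fix_infty hg h
  refine ⟨a, ?_⟩
  simp only [Perm.coe_mul, Function.comp_apply, dl_coe, tr_coe, mul_zero, zero_add] at h0
  have hb : b = 0 := OnePoint.coe_injective h0
  rw [hb, tr_zero, one_mul]

/-- transitivity on ordered pairs -/
lemma two_trans {x y : OnePoint F} (hxy : x ≠ y) :
    ∃ g ∈ Lam F, g ∞ = x ∧ g ((0 : F) : OnePoint F) = y := by
  -- first move `∞` to `x`
  have h1 : ∀ x : OnePoint F, ∃ g ∈ Lam F, g ∞ = x := by
    intro x
    induction x using OnePoint.rec with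
    | infty => exact ⟨1, one_mem _, rfl⟩
    | coe x => exact ⟨tr x * ww, mul_mem (tr_mem _) ww_mem, by simp⟩
  obtain ⟨g, hg, rfl⟩ := h1 x
  have h2 : g⁻¹ y ≠ ∞ := by
    intro h
    apply hxy
    rw [← h]
    simp
  induction h3 : g⁻¹ y using OnePoint.rec with
  | infty => exact absurd h3 h2
  | coe b =>
    refine ⟨g * tr b, mul_mem hg (tr_mem _), by simp, ?_⟩
    simp only [Perm.coe_mul, Function.comp_apply, tr_coe, zero_add]
    rw [← h3]
    simp

lemma transLam (x y : OnePoint F) : ∃ g ∈ Lam F, g x = y := by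
  have h1 : ∀ x : OnePoint F, ∃ g ∈ Lam F, g ∞ = x := by
    intro x
    induction x using OnePoint.rec with
    | infty => exact ⟨1, one_mem _, rfl⟩
    | coe x => exact ⟨tr x * ww, mul_mem (tr_mem _) ww_mem, by simp⟩
  obtain ⟨g, hg, rfl⟩ := h1 x
  obtain ⟨h, hh, rfl⟩ := h1 y
  exact ⟨h * g⁻¹, mul_mem hh (inv_mem hg), by simp⟩

end Pool.Agent.Work.MP_bc729a_al.L2
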