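import Pool.Agent.Work.MP_bc729a_al.L2.Five

/-! The case `q = 9`. -/

open Equiv OnePoint
open scoped MatrixGroups Pointwise

namespace Pool.Agent.Work.MP_bc729a_al.L2

universe u v

variable {F : Type v} [Field F] [DecidableEq F]

lemma charP_three [Fintype F] (h9 : Fintype.card F = 9) : CharP F 3 := by
  obtain ⟨n, hp, hc⟩ := FiniteField.card F (ringChar F)
  have h1 : ringChar F ∣ 9 := by
    rw [← h9, hc]
    exact dvd_pow_self _ n.pos.ne'
  have h2 : ringChar F ∣ 3 := by
    have : (9 : ℕ) = 3 ^ 2 := by norm_num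
    rw [this] at h1
    exact hp.dvd_of_dvd_pow h1
  have h3 : ringChar F = 3 := (Nat.prime_dvd_prime_iff_eq hp Nat.prime_three).1 h2
  rw [← h3]
  exact ringChar.charP F

/-- a permutation normalising `PSL(2, 9)` and fixing `∞` and `0` has order dividing `16` -/
lemma pow_sixteen_aux [Fintype F] (h9 : Fintype.card F = 9) {σ : Perm (OnePoint F)}
    (hσ : ∀ x ∈ Lam F, σ * x * σ⁻¹ ∈ Lam F) (h1 : σ ∞ = ∞)
    (h0 : σ ((0 : F) : OnePoint F) = ((0 : F) : OnePoint F)) : σ ^ 16 = 1 := by
  have hc3 := charP_three h9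
  have hp3 : Fact (Nat.Prime 3) := ⟨Nat.prime_three⟩
  have h2 : ringChar F ≠ 2 := by
    intro h
    have := FiniteField.even_card_of_char_two h
    omega
  -- the map on `F`
  have hex : ∀ x : F, ∃ y : F, σ (x : OnePoint F) = (y : OnePoint F) := by
    intro x
    induction h : σ (x : OnePoint F) using OnePoint.rec with
    | infty =>
      exfalso
      exact OnePoint.coe_ne_infty x (σ.injective (h.trans h1.symm))
    | coe y => exact ⟨y, rfl⟩
  choose f hf using hex
  have hf0 : f 0 = 0 := OnePoint.coe_injective ((hf 0).symm.trans h0)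
  have hinj : ∀ x y, f x = f y → x = y := by
    intro x y h
    have : σ (x : OnePoint F) = σ (y : OnePoint F) := by rw [hf, hf, h]
    exact OnePoint.coe_injective (σ.injective this)
  have hiinf : σ⁻¹ ∞ = ∞ := by
    rw [Perm.inv_eq_iff_eq]; exact h1.symm
  have hi0 : σ⁻¹ ((0 : F) : OnePoint F) = ((0 : F) : OnePoint F) := by
    rw [Perm.inv_eq_iff_eq]; exact h0.symm
  have hadd : ∀ x b, f (x + b) = f x + f b := by
    intro x b
    obtain ⟨b', hb'⟩ := eq_tr_of_pow 3 (hσ _ (tr_mem b))
      (by rw [conj_pow, tr_pow_char 3]; simp) (by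
        rw [Perm.mul_apply, Perm.mul_apply, hiinf, tr_infty, h1])
    have h3 : σ * tr b = tr b' * σ := by rw [← hb']; group
    have h4 : ∀ y : F, f (y + b) = f y + b' := by
      intro y
      have h5 := congrArg (fun g : Perm (OnePoint F) => g (y : OnePoint F)) h3
      simp only [Perm.mul_apply, tr_coe, hf] at h5
      exact OnePoint.coe_injective h5
    have h5 := h4 0
    rw [zero_add, hf0, zero_add] at h5
    rw [h4, h5]
  have hneg : ∀ x, f (-x) = -f x := by
    intro x
    have := hadd x (-x)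
    rw [add_neg_cancel, hf0] at this
    exact (neg_eq_of_add_eq_zero_right this.symm).symm
  obtain ⟨i, hi⟩ : IsSquare (-1 : F) := by
    rw [FiniteField.isSquare_neg_one_iff, h9]; norm_num
  have hi2 : i ^ 2 = -1 := by rw [hi]; ring
  have hi00 : i ≠ 0 := by
    rintro rfl
    rw [mul_zero] at hi
    exact (neg_ne_zero.2 one_ne_zero) hi
  obtain ⟨a, ha⟩ : IsSquare i := by
    rw [FiniteField.isSquare_iff h2 hi00, h9]
    norm_num
    calc i ^ 4 = (i ^ 2) ^ 2 := by ring
      _ = 1 := by rw [hi2]; ring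
  have ha0 : a ≠ 0 := by rintro rfl; rw [mul_zero] at ha; exact hi00 ha
  obtain ⟨a', ha'⟩ := fix_two (hσ _ (dl_mem (Units.mk0 a ha0)))
    (by rw [Perm.mul_apply, Perm.mul_apply, hiinf, dl_infty, h1])
    (by rw [Perm.mul_apply, Perm.mul_apply, hi0, dl_coe, mul_zero, h0])
  have h3 : σ * dl (Units.mk0 a ha0) = dl a' * σ := by rw [← ha']; group
  set μ : F := (a' : F) ^ 2 with hμ
  have hμx : ∀ x, f (i * x) = μ * f x := by
    intro x
    have h5 := congrArg (fun g : Perm (OnePoint F) => g (x : OnePoint F)) h3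
    simp only [Perm.mul_apply, dl_coe, hf, Units.val_mk0] at h5
    have h6 := OnePoint.coe_injective h5
    rw [pow_two, ← ha] at h6
    exact h6
  have hf1 : f 1 ≠ 0 := by
    intro h
    have := hinj 1 0 (by rw [h, hf0])
    exact one_ne_zero this
  have hμ2 : μ ^ 2 = -1 := by
    have h5 : f (i * (i * 1)) = μ * (μ * f 1) := by rw [hμx, hμx]
    have h6 : i * (i * 1) = -1 := by rw [← hi2]; ring
    rw [h6, hneg] at h5
    have h7 : (μ ^ 2 + 1) * f 1 = 0 := by linear_combination -h5
    exact eq_neg_of_add_eq_zero_left ((mul_eq_zero.1 h7).resolve_right hf1)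
  have hμi : μ = i ∨ μ = -i := by
    have h5 : (μ - i) * (μ + i) = 0 := by linear_combination hμ2 - hi2
    rcases mul_eq_zero.1 h5 with h | h
    · exact Or.inl (sub_eq_zero.1 h)
    · exact Or.inr (eq_neg_of_add_eq_zero_left h)
  have hk : ∀ x, f (f (i * x)) = i * f (f x) := by
    intro x
    rcases hμi with h | h
    · rw [hμx, h, hμx, h]
    · rw [hμx, h, neg_mul, hneg, hμx, h]; ring
  -- `f ∘ f` is multiplication by a constant
  let V : AddSubgroup F :=
    { carrier := {y | f (f y) = y * f (f 1)}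
      zero_mem' := by
        change f (f 0) = 0 * _
        rw [hf0, hf0, zero_mul]
      add_mem' := by
        intro x y hx hy
        change f (f (x + y)) = (x + y) * _
        have hx' : f (f x) = x * f (f 1) := hx
        have hy' : f (f y) = y * f (f 1) := hy
        rw [hadd, hadd, hx', hy', add_mul]
      neg_mem' := by
        intro x hx
        change f (f (-x)) = (-x) * _
        have hx' : f (f x) = x * f (f 1) := hx
        rw [hneg, hneg, hx', neg_mul] }
  have hV1 : (1 : F) ∈ V := by change f (f 1) = 1 * _; rw [one_mul]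
  have hVi : i ∈ V := by
    change f (f i) = i * _
    have := hk 1
    rwa [mul_one] at this
  have hVtop : V = ⊤ := by
    have h5 : Nat.card V ∣ 9 := by
      have := V.card_addSubgroup_dvd_card
      rwa [Nat.card_eq_fintype_card (α := F), h9] at this
    have h6 : 4 ≤ Nat.card V := by
      have h7 : (({0, 1, -1, i} : Finset F) : Set F) ⊆ (V : Set F) := by
        intro x hx
        simp only [Finset.coe_insert, Finset.coe_singleton, Set.mem_insert_iff,
          Set.mem_singleton_iff] at hx
        rcases hx with rfl | rfl | rfl | rfl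
        · exact V.zero_mem
        · exact hV1
        · exact V.neg_mem hV1
        · exact hVi
      have h8 := Set.ncard_le_ncard h7 (Set.toFinite _)
      rw [Set.ncard_coe_finset] at h8
      have h10 : ({0, 1, -1, i} : Finset F).card = 4 := by
        have e1 : (1 : F) ≠ -1 := fun h => Ring.neg_one_ne_one_of_char_ne_two h2 h.symm
        have e2 : i ≠ 1 := by rintro rfl; apply e1; rw [← hi2]; ring
        have e3 : i ≠ -1 := by rintro rfl; apply e1; rw [← hi2]; ring
        rw [Finset.card_insert_of_notMem, Finset.card_insert_of_notMem,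
          Finset.card_insert_of_notMem, Finset.card_singleton]
        · simpa using e3.symm
        · simp only [Finset.mem_insert, Finset.mem_singleton, not_or]
          exact ⟨e1, e2.symm⟩
        · simp only [Finset.mem_insert, Finset.mem_singleton, not_or]
          exact ⟨zero_ne_one, by simp, hi00.symm⟩
      rw [h10] at h8
      exact h8
    have h7 : Nat.card V = 9 := by
      have h8 := Nat.le_of_dvd (by norm_num) h5
      generalize Nat.card V = m at *
      interval_cases m <;> omega
    rw [← AddSubgroup.index_eq_one]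
    have h8 := V.card_mul_index
    rw [h7, Nat.card_eq_fintype_card, h9] at h8
    omega
  have hff : ∀ y, f (f y) = y * f (f 1) := by
    intro y
    have : y ∈ V := by rw [hVtop]; trivial
    exact this
  have hpow : ∀ n : ℕ, ∀ y : F, (σ ^ 2) ^ n • (y : OnePoint F) =
      ((y * (f (f 1)) ^ n : F) : OnePoint F) := by
    intro n
    induction n with
    | zero => intro y; simp
    | succ n ih =>
      intro y
      rw [pow_succ', mul_smul, ih]
      change (σ ^ 2) _ = _
      rw [pow_two, Perm.mul_apply, hf, hf, hff]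
      congr 1
      ring
  have hc0 : f (f 1) ≠ 0 := by
    intro h
    have h5 := hinj (f 1) 0 (by rw [h, hf0])
    exact hf1 h5
  have hc8 : (f (f 1)) ^ 8 = 1 := by
    have := FiniteField.pow_card_sub_one_eq_one _ hc0
    rwa [h9] at this
  ext x
  induction x using OnePoint.rec with
  | infty =>
    have h5 : ∀ n : ℕ, (σ ^ n) ∞ = ∞ := by
      intro n
      induction n with
      | zero => rfl
      | succ n ih => rw [pow_succ, Perm.mul_apply, h1, ih]
    rw [h5]; rfl
  | coe y =>
    have h5 := hpow 8 y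
    rw [hc8, mul_one, ← pow_mul] at h5
    exact h5

lemma pow_sixteen [Fintype F] (h9 : Fintype.card F = 9) {σ : Perm (OnePoint F)}
    (hσ : ∀ x ∈ Lam F, σ * x * σ⁻¹ ∈ Lam F) {x y : OnePoint F} (hxy : x ≠ y) (hx : σ x = x)
    (hy : σ y = y) : σ ^ 16 = 1 := by
  obtain ⟨k, hk, rfl, rfl⟩ := two_trans hxy
  have h1 := pow_sixteen_aux h9 (σ := k⁻¹ * σ * k) (by
    intro z hz
    have h2 := hσ (k * z * k⁻¹) (mul_mem (mul_mem hk hz) (inv_mem hk))
    have h3 : k⁻¹ * σ * k * z * (k⁻¹ * σ * k)⁻¹ = k⁻¹ * (σ * (k * z * k⁻¹) * σ⁻¹) * k := by group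
    rw [h3]
    exact mul_mem (mul_mem (inv_mem hk) h2) hk) (by
      rw [Perm.mul_apply, Perm.mul_apply, hx]; simp) (by
      rw [Perm.mul_apply, Perm.mul_apply, hy]; simp)
  have h2 : k⁻¹ * σ * k = k⁻¹ * σ * (k⁻¹)⁻¹ := by rw [inv_inv]
  rw [h2, conj_pow, inv_inv, mul_eq_one_iff_eq_inv, mul_eq_left] at h1
  exact h1

/-- fixed points in an orbit -/
lemma fixed_in_orbit {Ω : Type v} [Finite Ω] (T : Subgroup (Perm Ω)) (x : Ω) (t : Perm Ω)
    (ht : t ∈ T) (p : ℕ) [Fact p.Prime] (htp : t ^ p = 1)
    (hp : ¬ p ∣ Nat.card (MulAction.orbit T x)) : ∃ y ∈ MulAction.orbit T x, t y = y := by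
  classical
  have := Fintype.ofFinite (MulAction.orbit T x)
  rw [Nat.card_eq_fintype_card] at hp
  let s : Perm (MulAction.orbit T x) := MulAction.toPermHom T (MulAction.orbit T x) ⟨t, ht⟩
  have hs : s ^ p ^ 1 = 1 := by
    rw [pow_one, ← map_pow]
    have : (⟨t, ht⟩ : T) ^ p = 1 := Subtype.ext htp
    rw [this, map_one]
  obtain ⟨y, hy⟩ := Equiv.Perm.exists_fixed_point_of_prime hp hs
  exact ⟨y, y.2, congrArg Subtype.val hy⟩

/-- no subgroup of odd order divisible by `15` normalises `PSL(2, 9)` -/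
theorem no_odd_ten [Fintype F] (h9 : Fintype.card F = 9) (T : Subgroup (Perm (OnePoint F)))
    (hT : ∀ σ ∈ T, ∀ x ∈ Lam F, σ * x * σ⁻¹ ∈ Lam F) (hodd : ¬ 2 ∣ Nat.card T)
    (h15 : 15 ∣ Nat.card T) : False := by
  have hn : Nat.card (OnePoint F) = 10 := by
    rw [Nat.card_eq_fintype_card]
    have : Fintype.card (OnePoint F) = Fintype.card F + 1 := Fintype.card_option
    rw [this, h9]
  have hp5 : Fact (Nat.Prime 5) := ⟨by norm_num⟩
  have hp3 : Fact (Nat.Prime 3) := ⟨by norm_num⟩
  obtain ⟨g', hg'⟩ := exists_prime_orderOf_dvd_card' (G := T) 5 (dvd_trans (by norm_num) h15)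
  obtain ⟨h', hh'⟩ := exists_prime_orderOf_dvd_card' (G := T) 3 (dvd_trans (by norm_num) h15)
  set g : Perm (OnePoint F) := (g' : Perm (OnePoint F)) with hg
  set h : Perm (OnePoint F) := (h' : Perm (OnePoint F)) with hh
  have hg5 : g ^ 5 = 1 := by
    have := pow_orderOf_eq_one g'
    rw [hg'] at this
    exact congrArg Subtype.val this
  have hh3 : h ^ 3 = 1 := by
    have := pow_orderOf_eq_one h'
    rw [hh'] at this
    exact congrArg Subtype.val this
  have hg1 : g ≠ 1 := by
    intro h1
    have : g' = 1 := Subtype.ext h1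
    rw [this, orderOf_one] at hg'
    omega
  have hh1 : h ≠ 1 := by
    intro h1
    have : h' = 1 := Subtype.ext h1
    rw [this, orderOf_one] at hh'
    omega
  have hgfree : ∀ x, g x ≠ x := by
    intro x hx
    obtain ⟨y, hy, hyx⟩ := Equiv.Perm.exists_fixed_point_of_prime' (p := 5) (n := 1)
      (by rw [← Nat.card_eq_fintype_card, hn]; norm_num) (by rw [pow_one]; exact hg5) hx
    have h16 := pow_sixteen h9 (hT g g'.2) hyx hy hx
    apply hg1
    calc g = g ^ 16 * (g ^ 5) ^ 3 * ((g ^ 5) ^ 3)⁻¹ * ((g ^ 5) ^ 3)⁻¹ := by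
          rw [← pow_mul]; group
      _ = 1 := by rw [h16, hg5]; simp
  have horb : ∀ x : OnePoint F, Nat.card (MulAction.orbit T x) = 5 := by
    intro x
    have h1 : Nat.card (MulAction.orbit T x) ∣ Nat.card T := by
      have h2 := MulAction.index_stabilizer T x
      have h3 := Subgroup.index_dvd_card (MulAction.stabilizer T x)
      rwa [h2, ← Nat.card_coe_set_eq] at h3
    have h2 : 5 ∣ Nat.card (MulAction.orbit T x) := by
      by_contra hcon
      obtain ⟨y, -, hy⟩ := fixed_in_orbit T x g g'.2 5 hg5 hcon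
      exact hgfree y hy
    have h3 : Nat.card (MulAction.orbit T x) ≤ 10 := by
      rw [← hn]
      exact Nat.card_le_card_of_injective _ Subtype.val_injective
    have h4 : 0 < Nat.card (MulAction.orbit T x) := by
      have : Nonempty (MulAction.orbit T x) := ⟨⟨x, MulAction.mem_orbit_self x⟩⟩
      exact Nat.card_pos
    have h5 : ¬ 2 ∣ Nat.card (MulAction.orbit T x) := fun h6 => hodd (h6.trans h1)
    omega
  have hfix : ∀ x : OnePoint F, ∃ y ∈ MulAction.orbit T x, h y = y := fun x =>
    fixed_in_orbit T x h h'.2 3 hh3 (by rw [horb]; norm_num)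
  obtain ⟨x1, hx1⟩ : ∃ x1, x1 ∉ MulAction.orbit T (∞ : OnePoint F) := by
    by_contra hcon
    push Not at hcon
    have h1 : MulAction.orbit T (∞ : OnePoint F) = Set.univ := Set.eq_univ_of_forall hcon
    have h2 := horb ∞
    rw [Nat.card_coe_set_eq, h1, Set.ncard_univ, hn] at h2
    omega
  obtain ⟨y0, hy0, hy0f⟩ := hfix ∞
  obtain ⟨y1, hy1, hy1f⟩ := hfix x1
  have hne : y0 ≠ y1 := by
    rintro rfl
    apply hx1
    rw [← MulAction.orbit_eq_iff] at hy0 hy1
    rw [← MulAction.orbit_eq_iff, ← hy1, hy0]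
  have h16 := pow_sixteen h9 (hT h h'.2) hne hy0f hy1f
  apply hh1
  calc h = h ^ 16 * ((h ^ 3) ^ 5)⁻¹ := by
        rw [← pow_mul]; group
    _ = 1 := by rw [h16, hh3]; simp

/-- the case `q = 9` -/
theorem nine_case [Fintype F] (h9 : Fintype.card F = 9) {Q : Type u} [Group Q] [Finite Q]
    {A : Subgroup Q} (e : A ≃* Lam F) (hQ : MaxCompl Q) (hA : ConjComm A) : False := by
  have hs : IsSimpleGroup (Lam F) := lam_simple (by rw [Nat.card_eq_fintype_card, h9]; norm_num)
  have h2 : ringChar F ≠ 2 := by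
    intro h
    have := FiniteField.even_card_of_char_two h
    omega
  have ht := card_torus (F := F) h2
  have ht' : Nat.card (torus F) = 4 := by omega
  have hL : Nat.card (Lam F) = 360 := by rw [card_Lam, h9, ht']
  obtain ⟨M, K, R, hM, hAM, hBR, hR, hMR, hK, hnn⟩ := setup e (by omega) hQ hA
  have hdvd : R.index ∣ 45 := by
    have h3 := Subgroup.index_dvd_of_le hBR
    rwa [card_pairs, h9, show Nat.choose (9 + 1) 2 = 45 by decide] at h3
  have hodd : ¬ 2 ∣ R.index := fun h => by
    have := dvd_trans h hdvd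
    omega
  have hne := not_stab e h2 (by omega) hA M K R hM hAM hMR hK hnn hodd
  obtain ⟨X, hX, hV, hc, h | h⟩ := over_data hBR hR hne
  · rw [h.2, hL, h9, ht'] at hc
    exact no_index_nine hL R (by omega)
  · rw [h.1, hL, ht'] at hc
    have hi : R.index = 15 := by omega
    have h3 := index_dvd_indT e lam_unip.2 lam_unip.1 hA M K hM hAM hnn hK
    rw [relIndex_MR e hMR, hi] at h3
    refine no_odd_ten h9 (indT e K) (fun σ hσ x hx => normalizes_of_mem_indT e hσ x hx) ?_ h3
    intro h4
    have h7 := prime_dvd_indT e lam_unip.2 K 2 Nat.prime_two h4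
    have h8 := prime_dvd A hA M K hM hAM hnn hK 2 Nat.prime_two h7
    rw [relIndex_MR e hMR, hi] at h8
    omega

end Pool.Agent.Work.MP_bc729a_al.L2
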